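import Pool.Agent.H5.Tame.Grp

/-! Every automorphism of the group `N` is an automorphism of the Lie ring `L ℤ`. -/

set_option autoImplicit false

namespace Pool.Agent.H5.Tame

/-- group commutator -/
def cm (X Y : N) : N := X * Y * X⁻¹ * Y⁻¹

lemma map_cm (φ : MulAut N) (X Y : N) : φ (cm X Y) = cm (φ X) (φ Y) := by
  simp only [cm, map_mul, map_inv]

lemma toL_cm (X Y : N) : toL (cm X Y) =
    (12 : ℤ) • ⁅toL X, toL Y⁆ + (72 : ℤ) • ⁅toL X, ⁅toL X, toL Y⁆⁆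
      + (72 : ℤ) • ⁅toL Y, ⁅toL X, toL Y⁆⁆ := toL_comm X Y

lemma mem_F2_iff (X : N) : X ∈ F2 ↔ ∀ Y, cm X Y ∈ F3 := by
  constructor
  · intro h Y
    exact comm_mem_F3 h Y
  · intro h
    have a := (mem_F3.1 (h (e 0))).2
    have b := (mem_F3.1 (h (e 1))).2
    rw [toL_cm] at a b
    simp only [add_ap, zsmul_ap, br0, br1, br2, br3, br4, br5, toL_e] at a b
    simp at a b
    exact mem_F2.2 ⟨b.2, a.2, a.1⟩

lemma mem_F3_iff (X : N) : X ∈ F3 ↔ ∀ Y, cm X Y = 1 := by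
  constructor
  · intro h Y
    exact comm_eq_one h Y
  · intro h
    have h2 : X ∈ F2 := by
      rw [mem_F2_iff]
      intro Y
      rw [h Y]
      exact one_mem _
    refine mem_F3.2 ⟨mem_F2.1 h2, ?_⟩
    obtain ⟨h0, h1, h2⟩ := mem_F2.1 h2
    have a : toL (cm X (e 0)) = 0 := by rw [h (e 0)]; rfl
    rw [toL_cm] at a
    have a6 := congrFun a 6
    have a7 := congrFun a 7
    have a8 := congrFun a 8
    simp only [add_ap, zsmul_ap, br0, br1, br2, br3, br4, br5, br6, br7, br8, toL_e, zero_ap,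
      h0, h1, h2] at a6 a7 a8
    simp at a6 a7 a8
    exact ⟨a8, a6, a7⟩

lemma map_F3 (φ : MulAut N) {X : N} (h : X ∈ F3) : φ X ∈ F3 := by
  rw [mem_F3_iff]
  intro Y
  have := (mem_F3_iff X).1 h (φ⁻¹ Y)
  have h2 := congrArg φ this
  rwa [map_cm, MulAut.apply_inv_self, map_one] at h2

lemma map_F2 (φ : MulAut N) {X : N} (h : X ∈ F2) : φ X ∈ F2 := by
  rw [mem_F2_iff]
  intro Y
  have := (mem_F2_iff X).1 h (φ⁻¹ Y)
  have h2 := map_F3 φ this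
  rwa [map_cm, MulAut.apply_inv_self] at h2

/-- degree at least two, in the Lie ring -/
def D2 (X : L ℤ) : Prop := X 0 = 0 ∧ X 1 = 0 ∧ X 2 = 0

lemma D2_iff (X : L ℤ) : D2 X ↔ toN X ∈ F2 := Iff.rfl

lemma D2_br (X Y : L ℤ) : D2 ⁅X, Y⁆ := ⟨rfl, rfl, rfl⟩

lemma D2_add {X Y : L ℤ} (hX : D2 X) (hY : D2 Y) : D2 (X + Y) := by
  obtain ⟨h0, h1, h2⟩ := hX
  obtain ⟨k0, k1, k2⟩ := hY
  exact ⟨by rw [add_ap, h0, k0, add_zero], by rw [add_ap, h1, k1, add_zero],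
    by rw [add_ap, h2, k2, add_zero]⟩

lemma D2_zsmul {X : L ℤ} (n : ℤ) (hX : D2 X) : D2 (n • X) := by
  obtain ⟨h0, h1, h2⟩ := hX
  exact ⟨by rw [zsmul_ap, h0, smul_zero], by rw [zsmul_ap, h1, smul_zero],
    by rw [zsmul_ap, h2, smul_zero]⟩

lemma br_br_D2 (X Z : L ℤ) {Y : L ℤ} (hY : D2 Y) : ⁅Z, ⁅X, Y⁆⁆ = 0 := by
  obtain ⟨h0, h1, h2⟩ := hY
  apply L.ext
  refine forall12 ?_ ?_ ?_ ?_ ?_ ?_ ?_ ?_ ?_ ?_ ?_ ?_ <;>
  simp only [br0, br1, br2, br3, br4, br5, br6, br7, br8, br9, br10, br11,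
    h0, h1, h2, zero_mul, mul_zero, sub_zero, zero_ap]

lemma br_D2_D2 {X Y : L ℤ} (hX : D2 X) (hY : D2 Y) : ⁅X, Y⁆ = 0 := by
  obtain ⟨h0, h1, h2⟩ := hX
  obtain ⟨k0, k1, k2⟩ := hY
  apply L.ext
  refine forall12 ?_ ?_ ?_ ?_ ?_ ?_ ?_ ?_ ?_ ?_ ?_ ?_ <;>
  simp only [br0, br1, br2, br3, br4, br5, br6, br7, br8, br9, br10, br11,
    h0, h1, h2, k0, k1, k2, zero_mul, mul_zero, sub_zero, zero_ap]

lemma toL_mul' (X Y : N) : toL (X * Y) = toL X + toL Y + (6 : ℤ) • ⁅toL X, toL Y⁆ +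
    (12 : ℤ) • ⁅toL X, ⁅toL X, toL Y⁆⁆ + (12 : ℤ) • ⁅toL Y, ⁅toL Y, toL X⁆⁆ := rfl

lemma toL_mul_D2 (X : N) {Y : N} (hY : D2 (toL Y)) :
    toL (X * Y) = toL X + toL Y + (6 : ℤ) • ⁅toL X, toL Y⁆ := by
  rw [toL_mul', br_br_D2 _ _ hY, br_D2_D2 hY (D2_br _ _)]
  simp only [smul_zero, add_zero]

lemma toL_cm_D2 (X : N) {Y : N} (hY : D2 (toL Y)) :
    toL (cm X Y) = (12 : ℤ) • ⁅toL X, toL Y⁆ := by
  rw [toL_cm, br_br_D2 _ _ hY, br_D2_D2 hY (D2_br _ _)]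
  simp only [smul_zero, add_zero]

lemma zsmul_left_cancel {n : ℤ} (hn : n ≠ 0) {X Y : L ℤ} (h : n • X = n • Y) : X = Y := by
  apply L.ext
  intro i
  have h2 := congrFun h i
  change (n • X) i = (n • Y) i at h2
  rw [zsmul_ap, zsmul_ap, smul_eq_mul, smul_eq_mul] at h2
  exact mul_left_cancel₀ hn h2

/-- the map of the Lie ring underlying a group automorphism -/
def und (φ : MulAut N) (X : L ℤ) : L ℤ := toL (φ (toN X))

lemma und_toL (φ : MulAut N) (X : N) : und φ (toL X) = toL (φ X) := rfl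

lemma und_zsmul (φ : MulAut N) (n : ℤ) (X : L ℤ) : und φ (n • X) = n • und φ X := by
  have h1 : toL ((toN X) ^ n) = n • X := toL_zpow _ _
  rw [← h1, und_toL, map_zpow, toL_zpow]
  rfl

lemma und_D2 (φ : MulAut N) {X : L ℤ} (h : D2 X) : D2 (und φ X) :=
  (map_F2 φ (X := toN X) h : _)

lemma und_br_D2 (φ : MulAut N) (X : L ℤ) {Y : L ℤ} (h : D2 Y) :
    und φ ⁅X, Y⁆ = ⁅und φ X, und φ Y⁆ := by
  have h1 : toL (cm (toN X) (toN Y)) = (12 : ℤ) • ⁅X, Y⁆ := toL_cm_D2 _ h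
  have h2 : toL (cm (φ (toN X)) (φ (toN Y))) = (12 : ℤ) • ⁅und φ X, und φ Y⁆ :=
    toL_cm_D2 _ (und_D2 φ h)
  apply zsmul_left_cancel (n := 12) (by norm_num)
  rw [← h2, ← map_cm, ← und_zsmul, ← h1]
  rfl

lemma und_add_D2_D2 (φ : MulAut N) {X Y : L ℤ} (hX : D2 X) (hY : D2 Y) :
    und φ (X + Y) = und φ X + und φ Y := by
  have h1 : toL (toN X * toN Y) = X + Y := by
    rw [toL_mul_D2 (toN X) (Y := toN Y) hY]
    change X + Y + (6 : ℤ) • ⁅X, Y⁆ = X + Y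
    rw [br_D2_D2 hX hY, smul_zero, add_zero]
  have h2 : toL (φ (toN X) * φ (toN Y)) = und φ X + und φ Y := by
    rw [toL_mul_D2 _ (und_D2 φ hY)]
    change und φ X + und φ Y + (6 : ℤ) • ⁅und φ X, und φ Y⁆ = _
    rw [br_D2_D2 (und_D2 φ hX) (und_D2 φ hY), smul_zero, add_zero]
  rw [← h2, ← map_mul, ← h1]
  rfl

lemma und_add_D2 (φ : MulAut N) (X : L ℤ) {Y : L ℤ} (hY : D2 Y) :
    und φ (X + Y) = und φ X + und φ Y := by
  set Y' : L ℤ := Y + (-6 : ℤ) • ⁅X, Y⁆ with hY'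
  have d1 : D2 Y' := D2_add hY (D2_zsmul _ (D2_br _ _))
  have h1 : toL (toN X * toN Y') = X + Y := by
    rw [toL_mul_D2 (toN X) (Y := toN Y') d1]
    change X + Y' + (6 : ℤ) • ⁅X, Y'⁆ = X + Y
    rw [hY', lie_add, lie_smul, br_br_D2 X X hY, smul_zero, add_zero]
    module
  have e1 : und φ Y' = und φ Y + (-6 : ℤ) • ⁅und φ X, und φ Y⁆ := by
    rw [hY', und_add_D2_D2 φ hY (D2_zsmul _ (D2_br _ _)), und_zsmul, und_br_D2 φ X hY]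
  have h2 : toL (φ (toN X) * φ (toN Y')) = und φ X + und φ Y := by
    rw [toL_mul_D2 _ (und_D2 φ d1)]
    change und φ X + und φ Y' + (6 : ℤ) • ⁅und φ X, und φ Y'⁆ = _
    rw [e1, lie_add, lie_smul, br_br_D2 _ _ (und_D2 φ hY), smul_zero, add_zero]
    module
  rw [← h2, ← map_mul, ← h1]
  rfl

lemma toL_cm_cm (X Y Z : N) : toL (cm Z (cm X Y)) = (144 : ℤ) • ⁅toL Z, ⁅toL X, toL Y⁆⁆ := by
  have hC : D2 (toL (cm X Y)) := by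
    rw [toL_cm]
    exact D2_add (D2_add (D2_zsmul _ (D2_br _ _)) (D2_zsmul _ (D2_br _ _)))
      (D2_zsmul _ (D2_br _ _))
  rw [toL_cm_D2 _ hC, toL_cm, lie_add, lie_add, lie_smul, lie_smul, lie_smul,
    br_br_D2 _ _ (D2_br _ _), br_br_D2 _ _ (D2_br _ _)]
  module

lemma und_br_br (φ : MulAut N) (X Y Z : L ℤ) :
    und φ ⁅Z, ⁅X, Y⁆⁆ = ⁅und φ Z, ⁅und φ X, und φ Y⁆⁆ := by
  have h1 : toL (cm (toN Z) (cm (toN X) (toN Y))) = (144 : ℤ) • ⁅Z, ⁅X, Y⁆⁆ := toL_cm_cm _ _ _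
  have h2 : toL (cm (φ (toN Z)) (cm (φ (toN X)) (φ (toN Y)))) =
    (144 : ℤ) • ⁅und φ Z, ⁅und φ X, und φ Y⁆⁆ := toL_cm_cm _ _ _
  apply zsmul_left_cancel (n := 144) (by norm_num)
  rw [← h2, ← map_cm, ← map_cm, ← und_zsmul, ← h1]
  rfl

lemma und_br (φ : MulAut N) (X Y : L ℤ) : und φ ⁅X, Y⁆ = ⁅und φ X, und φ Y⁆ := by
  have h1 : toL (cm (toN X) (toN Y)) = (12 : ℤ) • ⁅X, Y⁆ + (72 : ℤ) • ⁅X, ⁅X, Y⁆⁆
      + (72 : ℤ) • ⁅Y, ⁅X, Y⁆⁆ := toL_cm _ _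
  have h2 : toL (cm (φ (toN X)) (φ (toN Y))) = (12 : ℤ) • ⁅und φ X, und φ Y⁆ +
      (72 : ℤ) • ⁅und φ X, ⁅und φ X, und φ Y⁆⁆
      + (72 : ℤ) • ⁅und φ Y, ⁅und φ X, und φ Y⁆⁆ := toL_cm _ _
  have h3 : und φ (toL (cm (toN X) (toN Y))) = toL (cm (φ (toN X)) (φ (toN Y))) := by
    rw [← map_cm]; rfl
  rw [h1, h2, und_add_D2_D2 φ (D2_add (D2_zsmul _ (D2_br _ _)) (D2_zsmul _ (D2_br _ _)))
    (D2_zsmul _ (D2_br _ _)), und_add_D2_D2 φ (D2_zsmul _ (D2_br _ _)) (D2_zsmul _ (D2_br _ _)),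
    und_zsmul, und_zsmul, und_zsmul, und_br_br, und_br_br] at h3
  apply zsmul_left_cancel (n := 12) (by norm_num)
  exact add_right_cancel (add_right_cancel h3)

lemma und_add (φ : MulAut N) (X Y : L ℤ) : und φ (X + Y) = und φ X + und φ Y := by
  have h1 : toL (toN X * toN Y) = (X + Y) + ((6 : ℤ) • ⁅X, Y⁆ +
    ((12 : ℤ) • ⁅X, ⁅X, Y⁆⁆ + (12 : ℤ) • ⁅Y, ⁅Y, X⁆⁆)) := by
    rw [toL_mul']
    simp only [toL_toN]
    abel
  have h2 : toL (φ (toN X) * φ (toN Y)) = (und φ X + und φ Y) +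
    ((6 : ℤ) • ⁅und φ X, und φ Y⁆ +
    ((12 : ℤ) • ⁅und φ X, ⁅und φ X, und φ Y⁆⁆ + (12 : ℤ) • ⁅und φ Y, ⁅und φ Y, und φ X⁆⁆)) := by
    rw [toL_mul']
    change und φ X + und φ Y + _ + _ + _ = _
    simp only [und]
    abel
  have h3 : und φ (toL (toN X * toN Y)) = toL (φ (toN X) * φ (toN Y)) := by
    rw [← map_mul]; rfl
  rw [h1, h2, und_add_D2 φ _ (D2_add (D2_zsmul _ (D2_br _ _)) (D2_add (D2_zsmul _ (D2_br _ _))
    (D2_zsmul _ (D2_br _ _)))), und_add_D2_D2 φ (D2_zsmul _ (D2_br _ _))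
    (D2_add (D2_zsmul _ (D2_br _ _)) (D2_zsmul _ (D2_br _ _))),
    und_add_D2_D2 φ (D2_zsmul _ (D2_br _ _)) (D2_zsmul _ (D2_br _ _)),
    und_zsmul, und_zsmul, und_zsmul, und_br, und_br_br, und_br_br] at h3
  exact add_right_cancel h3

end Pool.Agent.H5.Tame
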