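import Mathlib

/-! The 12-dimensional class-3 Lie ring attached to `x ^ 3 - x - 1`, over any commutative ring. -/

set_option autoImplicit false

namespace Pool.Agent.H5.Tame

/-- Coordinates: 0,1,2 degree one; 3,4,5 degree two; 6..11 degree three. -/
def L (R : Type) : Type := Fin 12 → R

variable {R : Type} [CommRing R]

instance : AddCommGroup (L R) := inferInstanceAs (AddCommGroup (Fin 12 → R))
instance : Module R (L R) := inferInstanceAs (Module R (Fin 12 → R))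
instance : Module.Finite R (L R) := inferInstanceAs (Module.Finite R (Fin 12 → R))
instance : Module.Free R (L R) := inferInstanceAs (Module.Free R (Fin 12 → R))

/-- the bracket of the Lie ring -/
def br (X Y : L R) : L R :=
  ![0, 0, 0,
    X 1 * Y 2 - X 2 * Y 1,
    X 2 * Y 0 - X 0 * Y 2,
    X 0 * Y 1 - X 1 * Y 0,
    (X 0 * Y 4 - X 2 * Y 3) - (Y 0 * X 4 - Y 2 * X 3),
    (X 0 * Y 5 - X 1 * Y 3) - (Y 0 * X 5 - Y 1 * X 3),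
    (X 1 * Y 4 - X 0 * Y 3 - X 2 * Y 3) - (Y 1 * X 4 - Y 0 * X 3 - Y 2 * X 3),
    (X 1 * Y 5 - X 1 * Y 3 - X 2 * Y 3) - (Y 1 * X 5 - Y 1 * X 3 - Y 2 * X 3),
    (X 2 * Y 4 - X 1 * Y 3) - (Y 2 * X 4 - Y 1 * X 3),
    (X 2 * Y 5 - X 0 * Y 3 - X 2 * Y 3) - (Y 2 * X 5 - Y 0 * X 3 - Y 2 * X 3)]

@[simp] lemma add_ap (X Y : L R) (i : Fin 12) : (X + Y) i = X i + Y i := rfl
@[simp] lemma zero_ap (i : Fin 12) : (0 : L R) i = 0 := rfl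
@[simp] lemma neg_ap (X : L R) (i : Fin 12) : (-X) i = - X i := rfl
@[simp] lemma sub_ap (X Y : L R) (i : Fin 12) : (X - Y) i = X i - Y i := rfl
@[simp] lemma smul_ap (a : R) (X : L R) (i : Fin 12) : (a • X) i = a * X i := rfl
@[simp] lemma nsmul_ap (a : ℕ) (X : L R) (i : Fin 12) : (a • X) i = a • X i := rfl
@[simp] lemma zsmul_ap (a : ℤ) (X : L R) (i : Fin 12) : (a • X) i = a • X i := rfl

@[ext] lemma L.ext {X Y : L R} (h : ∀ i, X i = Y i) : X = Y := funext h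

instance : Bracket (L R) (L R) := ⟨br⟩

lemma br_def (X Y : L R) : ⁅X, Y⁆ = br X Y := rfl

@[simp] lemma br0 (X Y : L R) : ⁅X, Y⁆ 0 = 0 := rfl
@[simp] lemma br1 (X Y : L R) : ⁅X, Y⁆ 1 = 0 := rfl
@[simp] lemma br2 (X Y : L R) : ⁅X, Y⁆ 2 = 0 := rfl
@[simp] lemma br3 (X Y : L R) : ⁅X, Y⁆ 3 = X 1 * Y 2 - X 2 * Y 1 := rfl
@[simp] lemma br4 (X Y : L R) : ⁅X, Y⁆ 4 = X 2 * Y 0 - X 0 * Y 2 := rfl
@[simp] lemma br5 (X Y : L R) : ⁅X, Y⁆ 5 = X 0 * Y 1 - X 1 * Y 0 := rfl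
@[simp] lemma br6 (X Y : L R) : ⁅X, Y⁆ 6 = (X 0 * Y 4 - X 2 * Y 3) - (Y 0 * X 4 - Y 2 * X 3) := rfl
@[simp] lemma br7 (X Y : L R) : ⁅X, Y⁆ 7 = (X 0 * Y 5 - X 1 * Y 3) - (Y 0 * X 5 - Y 1 * X 3) := rfl
@[simp] lemma br8 (X Y : L R) : ⁅X, Y⁆ 8 =
    (X 1 * Y 4 - X 0 * Y 3 - X 2 * Y 3) - (Y 1 * X 4 - Y 0 * X 3 - Y 2 * X 3) := rfl
@[simp] lemma br9 (X Y : L R) : ⁅X, Y⁆ 9 =
    (X 1 * Y 5 - X 1 * Y 3 - X 2 * Y 3) - (Y 1 * X 5 - Y 1 * X 3 - Y 2 * X 3) := rfl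
@[simp] lemma br10 (X Y : L R) : ⁅X, Y⁆ 10 =
    (X 2 * Y 4 - X 1 * Y 3) - (Y 2 * X 4 - Y 1 * X 3) := rfl
@[simp] lemma br11 (X Y : L R) : ⁅X, Y⁆ 11 =
    (X 2 * Y 5 - X 0 * Y 3 - X 2 * Y 3) - (Y 2 * X 5 - Y 0 * X 3 - Y 2 * X 3) := rfl

/-- reduce a statement about all of `Fin 12` to the twelve coordinates -/
lemma forall12 {p : Fin 12 → Prop} (h0 : p 0) (h1 : p 1) (h2 : p 2) (h3 : p 3) (h4 : p 4)
    (h5 : p 5) (h6 : p 6) (h7 : p 7) (h8 : p 8) (h9 : p 9) (h10 : p 10) (h11 : p 11) :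
    ∀ i, p i := by
  intro i
  fin_cases i <;> assumption

instance : LieRing (L R) where
  add_lie X Y Z := by
    apply L.ext
    refine forall12 ?_ ?_ ?_ ?_ ?_ ?_ ?_ ?_ ?_ ?_ ?_ ?_ <;>
    simp only [add_ap, br0, br1, br2, br3, br4, br5, br6, br7, br8, br9, br10, br11] <;> ring
  lie_add X Y Z := by
    apply L.ext
    refine forall12 ?_ ?_ ?_ ?_ ?_ ?_ ?_ ?_ ?_ ?_ ?_ ?_ <;>
    simp only [add_ap, br0, br1, br2, br3, br4, br5, br6, br7, br8, br9, br10, br11] <;> ring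
  lie_self X := by
    apply L.ext
    refine forall12 ?_ ?_ ?_ ?_ ?_ ?_ ?_ ?_ ?_ ?_ ?_ ?_ <;>
    simp only [zero_ap, br0, br1, br2, br3, br4, br5, br6, br7, br8, br9, br10, br11] <;> ring
  leibniz_lie X Y Z := by
    apply L.ext
    refine forall12 ?_ ?_ ?_ ?_ ?_ ?_ ?_ ?_ ?_ ?_ ?_ ?_ <;>
    simp only [add_ap, br0, br1, br2, br3, br4, br5, br6, br7, br8, br9, br10, br11] <;> ring

instance : LieAlgebra R (L R) where
  lie_smul a X Y := by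
    apply L.ext
    refine forall12 ?_ ?_ ?_ ?_ ?_ ?_ ?_ ?_ ?_ ?_ ?_ ?_ <;>
    simp only [smul_ap, br0, br1, br2, br3, br4, br5, br6, br7, br8, br9, br10, br11] <;> ring

/-- The class-3 Baker-Campbell-Hausdorff product, rescaled by 12. -/
def bch (X Y : L R) : L R :=
  X + Y + (6 : R) • ⁅X, Y⁆ + (12 : R) • ⁅X, ⁅X, Y⁆⁆ + (12 : R) • ⁅Y, ⁅Y, X⁆⁆

lemma bch_assoc (X Y Z : L R) : bch (bch X Y) Z = bch X (bch Y Z) := by
  apply L.ext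
  refine forall12 ?_ ?_ ?_ ?_ ?_ ?_ ?_ ?_ ?_ ?_ ?_ ?_ <;>
  simp only [bch, add_ap, smul_ap, br0, br1, br2, br3, br4, br5, br6, br7, br8, br9, br10, br11] <;>
  ring

lemma bch_zero (X : L R) : bch X 0 = X := by
  apply L.ext
  refine forall12 ?_ ?_ ?_ ?_ ?_ ?_ ?_ ?_ ?_ ?_ ?_ ?_ <;>
  simp only [bch, add_ap, smul_ap, zero_ap, br0, br1, br2, br3, br4, br5, br6, br7, br8, br9,
    br10, br11] <;>
  ring

lemma zero_bch (X : L R) : bch 0 X = X := by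
  apply L.ext
  refine forall12 ?_ ?_ ?_ ?_ ?_ ?_ ?_ ?_ ?_ ?_ ?_ ?_ <;>
  simp only [bch, add_ap, smul_ap, zero_ap, br0, br1, br2, br3, br4, br5, br6, br7, br8, br9,
    br10, br11] <;>
  ring

lemma neg_bch (X : L R) : bch (-X) X = 0 := by
  apply L.ext
  refine forall12 ?_ ?_ ?_ ?_ ?_ ?_ ?_ ?_ ?_ ?_ ?_ ?_ <;>
  simp only [bch, add_ap, smul_ap, zero_ap, neg_ap, br0, br1, br2, br3, br4, br5, br6, br7, br8,
    br9, br10, br11] <;>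
  ring

end Pool.Agent.H5.Tame
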