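import Mathlib

/-! The real root and the complex roots of `x ^ 3 - x - 1`. -/

set_option autoImplicit false

namespace Pool.Agent.H5.Tame

open Polynomial

lemma exists_real_root : ∃ r : ℝ, 1 < r ∧ r < 2 ∧ r ^ 3 = r + 1 := by
  have hc : ContinuousOn (fun x : ℝ => x ^ 3 - x - 1) (Set.Icc 1 2) := by fun_prop
  have h := intermediate_value_Icc (by norm_num : (1 : ℝ) ≤ 2) hc
  have h0 : (0 : ℝ) ∈ Set.Icc ((fun x : ℝ => x ^ 3 - x - 1) 1) ((fun x : ℝ => x ^ 3 - x - 1) 2) := by
    constructor <;> norm_num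
  obtain ⟨r, ⟨h1, h2⟩, hr⟩ := h h0
  have hr' : r ^ 3 - r - 1 = 0 := hr
  refine ⟨r, lt_of_le_of_ne h1 ?_, lt_of_le_of_ne h2 ?_, by linarith⟩
  · rintro rfl; norm_num at hr'
  · rintro rfl; norm_num at hr'

/-- the real root -/
noncomputable def r : ℝ := exists_real_root.choose

lemma one_lt_r : 1 < r := exists_real_root.choose_spec.1
lemma r_lt_two : r < 2 := exists_real_root.choose_spec.2.1
lemma r_cube : r ^ 3 = r + 1 := exists_real_root.choose_spec.2.2

lemma real_root_gt_one {x : ℝ} (hx : x ^ 3 = x + 1) : 1 < x := by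
  by_contra h
  push Not at h
  nlinarith [sq_nonneg (x + 1), sq_nonneg x, sq_nonneg (x - 1), sq_nonneg (x * (x + 1)),
    sq_nonneg (2 * x + 1)]

lemma real_root_unique {x : ℝ} (hx : x ^ 3 = x + 1) : x = r := by
  have h1 := real_root_gt_one hx
  have h2 := one_lt_r
  have h3 := r_cube
  have h4 : (x - r) * (x ^ 2 + x * r + r ^ 2 - 1) = 0 := by ring_nf; linarith
  rcases mul_eq_zero.1 h4 with h | h
  · linarith
  · nlinarith

lemma minpoly_r : minpoly ℚ r = (X ^ 3 - X - 1 : ℚ[X]) := by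
  symm
  apply minpoly.eq_of_irreducible_of_monic
  · exact X_pow_sub_X_sub_one_irreducible_rat (by norm_num)
  · simp [r_cube]
  · monicity!

lemma lin_indep_rat {a b c : ℚ} (h : (a : ℝ) + b * r + c * r ^ 2 = 0) : a = 0 ∧ b = 0 ∧ c = 0 := by
  have h1 : minpoly ℚ r ∣ (C a + C b * X + C c * X ^ 2 : ℚ[X]) := by
    apply minpoly.dvd
    simpa using h
  rw [minpoly_r] at h1
  have h2 : (C a + C b * X + C c * X ^ 2 : ℚ[X]) = 0 := by
    apply Polynomial.eq_zero_of_dvd_of_natDegree_lt h1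
    have e1 : (X ^ 3 - X - 1 : ℚ[X]).natDegree = 3 := by compute_degree!
    have e2 : (C a + C b * X + C c * X ^ 2 : ℚ[X]).natDegree ≤ 2 := by compute_degree
    omega
  have c0 := congrArg (fun p => Polynomial.coeff p 0) h2
  have c1 := congrArg (fun p => Polynomial.coeff p 1) h2
  have c2 := congrArg (fun p => Polynomial.coeff p 2) h2
  simp [coeff_X, coeff_C] at c0 c1 c2
  exact ⟨c0, c1, c2⟩

lemma lin_indep {a b c : ℤ} (h : (a : ℝ) + b * r + c * r ^ 2 = 0) : a = 0 ∧ b = 0 ∧ c = 0 := by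
  have := lin_indep_rat (a := (a : ℚ)) (b := (b : ℚ)) (c := (c : ℚ)) (by exact_mod_cast h)
  exact_mod_cast this

lemma r_disc : 0 < 3 * r ^ 2 - 4 := by
  have h1 := one_lt_r
  have h2 := r_lt_two
  have h3 := r_cube
  by_contra h
  push Not at h
  nlinarith

/-- a non-real root -/
noncomputable def s : ℂ := ⟨- r / 2, Real.sqrt (3 * r ^ 2 - 4) / 2⟩

lemma s_re : s.re = - r / 2 := rfl
lemma s_im : s.im = Real.sqrt (3 * r ^ 2 - 4) / 2 := rfl

lemma s_im_pos : 0 < s.im := by
  rw [s_im]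
  have := Real.sqrt_pos.2 r_disc
  linarith

lemma s_sq : s ^ 2 + (r : ℂ) * s + ((r : ℂ) ^ 2 - 1) = 0 := by
  have h := Real.mul_self_sqrt (le_of_lt r_disc)
  have h' : s.im * s.im = (3 * r ^ 2 - 4) / 4 := by
    rw [s_im]; linear_combination h / 4
  apply Complex.ext
  · simp [pow_two, s_re]
    nlinarith
  · simp [pow_two, s_re]
    ring

lemma s_cube : s ^ 3 = s + 1 := by
  have h := s_sq
  have h3 : (r : ℂ) ^ 3 = r + 1 := by exact_mod_cast r_cube
  linear_combination (s - r) * h + h3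

/-- its complex conjugate -/
noncomputable def t : ℂ := (starRingEnd ℂ) s

lemma t_re : t.re = s.re := rfl
lemma t_im : t.im = - s.im := rfl

lemma s_ne_t : s ≠ t := by
  intro h
  have := congrArg Complex.im h
  rw [t_im] at this
  have := s_im_pos
  linarith

lemma s_add_t : s + t = - (r : ℂ) := by
  apply Complex.ext
  · simp [t_re, s_re]
  · simp [t_im]

lemma t_sq : t ^ 2 + (r : ℂ) * t + ((r : ℂ) ^ 2 - 1) = 0 := by
  have h := congrArg (starRingEnd ℂ) s_sq
  simpa [t] using h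

lemma t_cube : t ^ 3 = t + 1 := by
  have h := congrArg (starRingEnd ℂ) s_cube
  simpa [t] using h

lemma s_mul_t : s * t = (r : ℂ) ^ 2 - 1 := by
  have h1 := s_sq
  have h2 := s_add_t
  linear_combination s * h2 - h1

lemma s_mul_t_mul_r : s * t * r = 1 := by
  rw [s_mul_t]
  have h3 : (r : ℂ) ^ 3 = r + 1 := by exact_mod_cast r_cube
  linear_combination h3

lemma norm_s_sq : ‖s‖ ^ 2 = r ^ 2 - 1 := by
  have h : ((‖s‖ ^ 2 : ℝ) : ℂ) = ((r ^ 2 - 1 : ℝ) : ℂ) := by
    have := Complex.mul_conj s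
    rw [Complex.normSq_eq_norm_sq] at this
    rw [← this]
    change s * t = _
    rw [s_mul_t]
    push_cast
    ring
  exact_mod_cast h

lemma norm_s_lt : ‖s‖ < r := by
  have h1 := norm_s_sq
  have h2 := one_lt_r
  by_contra h
  push Not at h
  nlinarith [norm_nonneg s]

lemma s_ne_zero : s ≠ 0 := by
  intro h
  have := s_im_pos
  rw [h] at this
  simp at this

lemma t_ne_zero : t ≠ 0 := by
  intro h
  have h1 := congrArg Complex.im h
  rw [t_im] at h1
  have := s_im_pos
  simp at h1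
  linarith

/-- orthogonality of the two eigenvectors -/
lemma wv_zero : 1 + s * t ^ 2 + s ^ 2 * t = 0 := by
  have h1 := s_add_t
  have h2 := s_mul_t_mul_r
  linear_combination s * t * h1 - h2

end Pool.Agent.H5.Tame
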