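import Pool.Agent.H5.Tame.Aut
import Pool.Agent.H5.Tame.Roots

/-! Extension of automorphisms of `L ℤ` to `L ℚ`. -/

set_option autoImplicit false

namespace Pool.Agent.H5.Tame

/-- coordinatewise inclusion of the lattice -/
def castL (X : L ℤ) : L ℚ := fun i => (X i : ℚ)

@[simp] lemma castL_ap (X : L ℤ) (i : Fin 12) : castL X i = (X i : ℚ) := rfl

lemma castL_add (X Y : L ℤ) : castL (X + Y) = castL X + castL Y := by
  apply L.ext; intro i; simp only [castL_ap, add_ap, Int.cast_add]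

lemma castL_zsmul (n : ℤ) (X : L ℤ) : castL (n • X) = (n : ℚ) • castL X := by
  apply L.ext; intro i
  simp only [castL_ap, zsmul_ap, smul_ap, smul_eq_mul, Int.cast_mul]

lemma castL_br (X Y : L ℤ) : castL ⁅X, Y⁆ = ⁅castL X, castL Y⁆ := by
  apply L.ext
  refine forall12 ?_ ?_ ?_ ?_ ?_ ?_ ?_ ?_ ?_ ?_ ?_ ?_ <;>
  simp only [castL_ap, br0, br1, br2, br3, br4, br5, br6, br7, br8, br9, br10, br11] <;>
  push_cast <;> ring

lemma castL_bch (X Y : L ℤ) : castL (bch X Y) = bch (castL X) (castL Y) := by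
  unfold bch
  have h : ∀ (n : ℤ) (X : L ℤ), castL (n • X) = (n : ℚ) • castL X := castL_zsmul
  rw [castL_add, castL_add, castL_add, castL_add]
  change _ + _ + castL ((6 : ℤ) • ⁅X, Y⁆) + castL ((12 : ℤ) • ⁅X, ⁅X, Y⁆⁆) +
    castL ((12 : ℤ) • ⁅Y, ⁅Y, X⁆⁆) = _
  rw [h, h, h, castL_br, castL_br, castL_br, castL_br, castL_br]
  norm_num

lemma castL_inj {X Y : L ℤ} (h : castL X = castL Y) : X = Y := by
  apply L.ext
  intro i
  have := congrFun h i
  simp only [castL] at this
  exact_mod_cast this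

/-- basis vectors of the lattice -/
def E (i : Fin 12) : L ℤ := fun j => if j = i then 1 else 0

lemma E_ap (i j : Fin 12) : E i j = if j = i then 1 else 0 := rfl

lemma sum_ap {R : Type} [CommRing R] {ι : Type} (s : Finset ι) (f : ι → L R) (i : Fin 12) :
    (∑ j ∈ s, f j) i = ∑ j ∈ s, f j i :=
  Finset.sum_apply (M := fun _ => R) i s f

lemma sum_E (X : L ℤ) : X = ∑ j, X j • E j := by
  apply L.ext
  intro i
  rw [sum_ap]
  simp only [zsmul_ap, E_ap, smul_eq_mul, mul_ite, mul_one, mul_zero]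
  exact (Finset.sum_ite_eq Finset.univ i (fun x => X x)).symm ▸ (if_pos (Finset.mem_univ i)).symm

lemma sum_castE (X : L ℚ) : X = ∑ j, X j • castL (E j) := by
  apply L.ext
  intro i
  rw [sum_ap]
  simp only [smul_ap, castL_ap, E_ap, Int.cast_ite, Int.cast_one, Int.cast_zero, mul_ite, mul_one,
    mul_zero]
  exact (Finset.sum_ite_eq Finset.univ i (fun x => X x)).symm ▸ (if_pos (Finset.mem_univ i)).symm

lemma exists_den (X : L ℚ) : ∃ n : ℕ, 0 < n ∧ ∃ X' : L ℤ, (n : ℚ) • X = castL X' := by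
  refine ⟨∏ i, (X i).den, Finset.prod_pos (fun i _ => (X i).den_pos), ?_⟩
  have h : ∀ i, ∃ z : ℤ, ((∏ i, (X i).den : ℕ) : ℚ) * X i = z := by
    intro i
    have hd : (X i).den ∣ ∏ i, (X i).den := Finset.dvd_prod_of_mem _ (Finset.mem_univ i)
    obtain ⟨k, hk⟩ := hd
    refine ⟨(X i).num * k, ?_⟩
    rw [hk]
    push_cast
    have : ((X i).den : ℚ) * X i = (X i).num := by
      rw [mul_comm]
      exact Rat.mul_den_eq_num (X i)
    linear_combination (k : ℚ) * this
  choose z hz using h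
  exact ⟨z, L.ext hz⟩

/-- two linear maps agreeing on the lattice basis agree -/
lemma lin_ext {A B : L ℚ →ₗ[ℚ] L ℚ} (h : ∀ j, A (castL (E j)) = B (castL (E j))) : A = B := by
  apply LinearMap.ext
  intro X
  rw [sum_castE X]
  simp only [map_sum, map_smul, h]

/-- linear extension to `L ℚ` -/
def extL (u : L ℤ → L ℤ) : L ℚ →ₗ[ℚ] L ℚ where
  toFun X := ∑ j, X j • castL (u (E j))
  map_add' X Y := by
    simp only [add_ap, add_smul, Finset.sum_add_distrib]
  map_smul' a X := by
    simp only [smul_ap, mul_smul, Finset.smul_sum, RingHom.id_apply]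

lemma extL_ap (u : L ℤ → L ℤ) (X : L ℚ) : extL u X = ∑ j, X j • castL (u (E j)) := rfl

/-- additive version of `castL` -/
def castHom : L ℤ →+ L ℚ := AddMonoidHom.mk' castL castL_add

/-- additive version of `und` -/
def undHom (φ : MulAut N) : L ℤ →+ L ℤ := AddMonoidHom.mk' (und φ) (und_add φ)

lemma extL_cast (φ : MulAut N) (X : L ℤ) : extL (und φ) (castL X) = castL (und φ X) := by
  have h1 : und φ X = ∑ j, X j • und φ (E j) := by
    conv_lhs => rw [sum_E X]
    change undHom φ (∑ j, X j • E j) = _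
    rw [map_sum]
    apply Finset.sum_congr rfl
    intro j _
    rw [map_zsmul]; rfl
  rw [h1, extL_ap]
  change _ = castHom _
  rw [map_sum]
  apply Finset.sum_congr rfl
  intro j _
  rw [map_zsmul]
  change ((X j : ℤ) : ℚ) • castHom (und φ (E j)) = _
  rw [Int.cast_smul_eq_zsmul]

lemma extL_mul (φ ψ : MulAut N) : (extL (und φ)).comp (extL (und ψ)) = extL (und (φ * ψ)) := by
  apply lin_ext
  intro j
  rw [LinearMap.comp_apply, extL_cast, extL_cast, extL_cast]
  rfl

lemma extL_one : extL (und 1) = LinearMap.id := by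
  apply lin_ext
  intro j
  rw [extL_cast]
  rfl

lemma extL_br (φ : MulAut N) (X Y : L ℚ) :
    extL (und φ) ⁅X, Y⁆ = ⁅extL (und φ) X, extL (und φ) Y⁆ := by
  obtain ⟨n, hn, X', hX⟩ := exists_den X
  obtain ⟨m, hm, Y', hY⟩ := exists_den Y
  have hn' : (n : ℚ) ≠ 0 := by positivity
  have hm' : (m : ℚ) ≠ 0 := by positivity
  have h1 : extL (und φ) ⁅(n : ℚ) • X, (m : ℚ) • Y⁆ =
      ⁅extL (und φ) ((n : ℚ) • X), extL (und φ) ((m : ℚ) • Y)⁆ := by
    rw [hX, hY, ← castL_br, extL_cast, und_br, castL_br, extL_cast, extL_cast]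
  rw [smul_lie, lie_smul, map_smul, map_smul, map_smul, map_smul, smul_lie, lie_smul] at h1
  exact smul_right_injective _ hm' (smul_right_injective _ hn' h1)

/-- the Lie algebra automorphism of `L ℚ` extending a group automorphism -/
noncomputable def Phi (φ : MulAut N) : L ℚ ≃ₗ⁅ℚ⁆ L ℚ where
  toFun := extL (und φ)
  invFun := extL (und φ⁻¹)
  map_add' := map_add _
  map_smul' := map_smul _
  map_lie' {X Y} := extL_br φ X Y
  left_inv X := by
    have := LinearMap.congr_fun (extL_mul φ⁻¹ φ) X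
    rw [inv_mul_cancel, extL_one] at this
    exact this
  right_inv X := by
    have := LinearMap.congr_fun (extL_mul φ φ⁻¹) X
    rw [mul_inv_cancel, extL_one] at this
    exact this

lemma Phi_ap (φ : MulAut N) (X : L ℚ) : Phi φ X = extL (und φ) X := rfl

end Pool.Agent.H5.Tame
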