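import Pool.Agent.H5.Tame.Basic

/-! The group `N` : the lattice `L ℤ` with the (rescaled) Baker-Campbell-Hausdorff product. -/

set_option autoImplicit false

namespace Pool.Agent.H5.Tame

/-- the group -/
def N : Type := L ℤ

/-- the identity map from the Lie ring to the group -/
def toN (X : L ℤ) : N := X
/-- the identity map from the group to the Lie ring -/
def toL (X : N) : L ℤ := X

instance : Group N where
  mul X Y := toN (bch (toL X) (toL Y))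
  one := toN 0
  inv X := toN (- toL X)
  mul_assoc X Y Z := bch_assoc (toL X) (toL Y) (toL Z)
  one_mul X := zero_bch (toL X)
  mul_one X := bch_zero (toL X)
  inv_mul_cancel X := neg_bch (toL X)

lemma toL_mul (X Y : N) : toL (X * Y) = bch (toL X) (toL Y) := rfl
lemma toL_one : toL (1 : N) = 0 := rfl
lemma toL_inv (X : N) : toL (X⁻¹) = - toL X := rfl
lemma toN_toL (X : N) : toN (toL X) = X := rfl
lemma toL_toN (X : L ℤ) : toL (toN X) = X := rfl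
lemma toL_inj {X Y : N} (h : toL X = toL Y) : X = Y := h
lemma toN_inj {X Y : L ℤ} (h : toN X = toN Y) : X = Y := h

lemma toL_pow (X : N) (n : ℕ) : toL (X ^ n) = n • toL X := by
  induction n with
  | zero => rw [pow_zero, toL_one, zero_smul]
  | succ n ih =>
    rw [pow_succ, toL_mul, ih]
    apply L.ext
    refine forall12 ?_ ?_ ?_ ?_ ?_ ?_ ?_ ?_ ?_ ?_ ?_ ?_ <;>
    simp only [bch, add_ap, smul_ap, nsmul_ap, br0, br1, br2, br3, br4, br5, br6, br7, br8, br9,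
      br10, br11, nsmul_eq_mul] <;>
    push_cast <;> ring

lemma toL_zpow (X : N) (n : ℤ) : toL (X ^ n) = n • toL X := by
  cases n with
  | ofNat n => rw [Int.ofNat_eq_natCast, zpow_natCast, toL_pow, natCast_zsmul]
  | negSucc n =>
    rw [zpow_negSucc, toL_inv, toL_pow, negSucc_zsmul]

instance : IsMulTorsionFree N where
  pow_left_injective n hn X Y h := by
    have h1 : toL (X ^ n) = toL (Y ^ n) := congrArg toL h
    rw [toL_pow, toL_pow] at h1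
    apply toL_inj
    apply L.ext
    intro i
    have h2 := congrFun h1 i
    change (n • toL X) i = (n • toL Y) i at h2
    rw [nsmul_ap, nsmul_ap, nsmul_eq_mul, nsmul_eq_mul] at h2
    have h3 : (n : ℤ) ≠ 0 := by exact_mod_cast hn
    exact mul_left_cancel₀ h3 h2

/-- coordinate formulas for the product -/
lemma mul0 (X Y : N) : toL (X * Y) 0 = toL X 0 + toL Y 0 := by
  simp only [toL_mul, bch, add_ap, smul_ap, br0]; ring
lemma mul1 (X Y : N) : toL (X * Y) 1 = toL X 1 + toL Y 1 := by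
  simp only [toL_mul, bch, add_ap, smul_ap, br1]; ring
lemma mul2 (X Y : N) : toL (X * Y) 2 = toL X 2 + toL Y 2 := by
  simp only [toL_mul, bch, add_ap, smul_ap, br2]; ring

lemma mul3 (X Y : N) : toL (X * Y) 3 =
    toL X 3 + toL Y 3 + 6 * (toL X 1 * toL Y 2 - toL X 2 * toL Y 1) := by
  simp only [toL_mul, bch, add_ap, smul_ap, br1, br2, br3]; ring
lemma mul4 (X Y : N) : toL (X * Y) 4 =
    toL X 4 + toL Y 4 + 6 * (toL X 2 * toL Y 0 - toL X 0 * toL Y 2) := by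
  simp only [toL_mul, bch, add_ap, smul_ap, br0, br2, br4]; ring
lemma mul5 (X Y : N) : toL (X * Y) 5 =
    toL X 5 + toL Y 5 + 6 * (toL X 0 * toL Y 1 - toL X 1 * toL Y 0) := by
  simp only [toL_mul, bch, add_ap, smul_ap, br0, br1, br5]; ring

/-- elements with vanishing degree-one part -/
def F2 : Subgroup N where
  carrier := {X | toL X 0 = 0 ∧ toL X 1 = 0 ∧ toL X 2 = 0}
  mul_mem' := by
    rintro X Y ⟨h0, h1, h2⟩ ⟨k0, k1, k2⟩
    refine ⟨?_, ?_, ?_⟩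
    · rw [mul0, h0, k0, add_zero]
    · rw [mul1, h1, k1, add_zero]
    · rw [mul2, h2, k2, add_zero]
  one_mem' := ⟨rfl, rfl, rfl⟩
  inv_mem' := by
    rintro X ⟨h0, h1, h2⟩
    refine ⟨?_, ?_, ?_⟩
    · rw [toL_inv, neg_ap, h0, neg_zero]
    · rw [toL_inv, neg_ap, h1, neg_zero]
    · rw [toL_inv, neg_ap, h2, neg_zero]

/-- elements with vanishing degree-one and degree-two part -/
def F3 : Subgroup N where
  carrier := {X | (toL X 0 = 0 ∧ toL X 1 = 0 ∧ toL X 2 = 0) ∧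
    (toL X 3 = 0 ∧ toL X 4 = 0 ∧ toL X 5 = 0)}
  mul_mem' := by
    rintro X Y ⟨⟨h0, h1, h2⟩, ⟨h3, h4, h5⟩⟩ ⟨⟨k0, k1, k2⟩, ⟨k3, k4, k5⟩⟩
    refine ⟨⟨?_, ?_, ?_⟩, ⟨?_, ?_, ?_⟩⟩
    · rw [mul0, h0, k0, add_zero]
    · rw [mul1, h1, k1, add_zero]
    · rw [mul2, h2, k2, add_zero]
    · rw [mul3, h1, h2, h3, k3]; ring
    · rw [mul4, h2, h0, h4, k4]; ring
    · rw [mul5, h0, h1, h5, k5]; ring
  one_mem' := ⟨⟨rfl, rfl, rfl⟩, ⟨rfl, rfl, rfl⟩⟩
  inv_mem' := by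
    rintro X ⟨⟨h0, h1, h2⟩, ⟨h3, h4, h5⟩⟩
    refine ⟨⟨?_, ?_, ?_⟩, ⟨?_, ?_, ?_⟩⟩
    · rw [toL_inv, neg_ap, h0, neg_zero]
    · rw [toL_inv, neg_ap, h1, neg_zero]
    · rw [toL_inv, neg_ap, h2, neg_zero]
    · rw [toL_inv, neg_ap, h3, neg_zero]
    · rw [toL_inv, neg_ap, h4, neg_zero]
    · rw [toL_inv, neg_ap, h5, neg_zero]

lemma mem_F2 {X : N} : X ∈ F2 ↔ toL X 0 = 0 ∧ toL X 1 = 0 ∧ toL X 2 = 0 := Iff.rfl
lemma mem_F3 {X : N} : X ∈ F3 ↔ (toL X 0 = 0 ∧ toL X 1 = 0 ∧ toL X 2 = 0) ∧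
    (toL X 3 = 0 ∧ toL X 4 = 0 ∧ toL X 5 = 0) := Iff.rfl

/-- the rescaled logarithm of a group commutator -/
lemma toL_comm (X Y : N) : toL (X * Y * X⁻¹ * Y⁻¹) =
    (12 : ℤ) • ⁅toL X, toL Y⁆ + (72 : ℤ) • ⁅toL X, ⁅toL X, toL Y⁆⁆
      + (72 : ℤ) • ⁅toL Y, ⁅toL X, toL Y⁆⁆ := by
  simp only [toL_mul, toL_inv]
  generalize toL X = X
  generalize toL Y = Y
  apply L.ext
  refine forall12 ?_ ?_ ?_ ?_ ?_ ?_ ?_ ?_ ?_ ?_ ?_ ?_ <;>
  simp only [bch, add_ap, smul_ap, zsmul_ap, neg_ap, br0, br1, br2, br3, br4, br5, br6, br7, br8,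
    br9, br10, br11, zsmul_eq_mul] <;>
  push_cast <;> ring

lemma comm_mem_F2 (X Y : N) : X * Y * X⁻¹ * Y⁻¹ ∈ F2 := by
  rw [mem_F2, toL_comm]
  refine ⟨?_, ?_, ?_⟩ <;>
  simp only [add_ap, zsmul_ap, br0, br1, br2, smul_zero, add_zero]

lemma comm_mem_F3 {X : N} (hX : X ∈ F2) (Y : N) : X * Y * X⁻¹ * Y⁻¹ ∈ F3 := by
  obtain ⟨h0, h1, h2⟩ := hX
  rw [mem_F3, toL_comm]
  refine ⟨⟨?_, ?_, ?_⟩, ⟨?_, ?_, ?_⟩⟩ <;>
  simp only [add_ap, zsmul_ap, br0, br1, br2, br3, br4, br5, smul_zero, add_zero, h0, h1, h2,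
    zero_mul, mul_zero, sub_zero]

lemma comm_eq_one {X : N} (hX : X ∈ F3) (Y : N) : X * Y * X⁻¹ * Y⁻¹ = 1 := by
  obtain ⟨⟨h0, h1, h2⟩, ⟨h3, h4, h5⟩⟩ := hX
  apply toL_inj
  rw [toL_comm, toL_one]
  apply L.ext
  refine forall12 ?_ ?_ ?_ ?_ ?_ ?_ ?_ ?_ ?_ ?_ ?_ ?_ <;>
  simp only [add_ap, zsmul_ap, br0, br1, br2, br3, br4, br5, br6, br7, br8, br9, br10, br11,
    smul_zero, add_zero, h0, h1, h2, h3, h4, h5, zero_mul, mul_zero, sub_zero, zero_ap]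

/-- the descending central series -/
def Hs : ℕ → Subgroup N
  | 0 => ⊤
  | 1 => F2
  | 2 => F3
  | _ => ⊥

instance : Group.IsNilpotent N := by
  rw [Subgroup.nilpotent_iff_finite_descending_central_series]
  refine ⟨3, Hs, ⟨rfl, ?_⟩, rfl⟩
  intro X n hX Y
  match n, hX with
  | 0, _ => exact comm_mem_F2 X Y
  | 1, hX => exact comm_mem_F3 hX Y
  | 2, hX =>
    exact comm_eq_one hX Y
  | (n + 3), hX =>
    have h1 : X = 1 := hX
    rw [h1]
    simp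

/-- the standard generators -/
def e (i : Fin 12) : N := toN (fun j => if j = i then 1 else 0)

lemma toL_e (i j : Fin 12) : toL (e i) j = if j = i then 1 else 0 := rfl

lemma toL_e_zpow (i j : Fin 12) (z : ℤ) : toL (e i ^ z) j = if j = i then z else 0 := by
  rw [toL_zpow, zsmul_ap, toL_e]
  split_ifs <;> simp

lemma bch_F3 (X Y : N) (hY : Y ∈ F3) : toL (X * Y) = toL X + toL Y := by
  obtain ⟨⟨h0, h1, h2⟩, ⟨h3, h4, h5⟩⟩ := hY
  rw [toL_mul]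
  apply L.ext
  refine forall12 ?_ ?_ ?_ ?_ ?_ ?_ ?_ ?_ ?_ ?_ ?_ ?_ <;>
  simp only [bch, add_ap, smul_ap, br0, br1, br2, br3, br4, br5, br6, br7, br8, br9, br10, br11,
    add_zero, h0, h1, h2, h3, h4, h5, zero_mul, mul_zero, sub_zero]

instance : Group.FG N := by
  classical
  refine Group.fg_iff.mpr ?_
  refine ⟨Set.range e, ?_, Set.finite_range e⟩
  rw [eq_top_iff]
  set S := Subgroup.closure (Set.range e) with hS
  have he : ∀ (i : Fin 12) (z : ℤ), e i ^ z ∈ S := fun i z =>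
    Subgroup.zpow_mem _ (Subgroup.subset_closure (Set.mem_range_self i)) z
  have heF3 : ∀ (i : Fin 12) (z : ℤ), 6 ≤ i → e i ^ z ∈ F3 := by
    intro i z hi
    rw [mem_F3]
    simp only [toL_e_zpow]
    refine ⟨⟨?_, ?_, ?_⟩, ⟨?_, ?_, ?_⟩⟩ <;> rw [if_neg] <;> intro h <;> rw [← h] at hi <;>
      exact absurd hi (by decide)
  -- degree three
  have h3 : ∀ X ∈ F3, X ∈ S := by
    intro X hX
    obtain ⟨⟨h0, h1, h2⟩, ⟨h3, h4, h5⟩⟩ := hX
    have : X = e 6 ^ (toL X 6) * e 7 ^ (toL X 7) * e 8 ^ (toL X 8) * e 9 ^ (toL X 9)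
        * e 10 ^ (toL X 10) * e 11 ^ (toL X 11) := by
      apply toL_inj
      rw [bch_F3 _ _ (heF3 11 _ (by decide)), bch_F3 _ _ (heF3 10 _ (by decide)),
        bch_F3 _ _ (heF3 9 _ (by decide)), bch_F3 _ _ (heF3 8 _ (by decide)),
        bch_F3 _ _ (heF3 7 _ (by decide))]
      apply L.ext
      refine forall12 ?_ ?_ ?_ ?_ ?_ ?_ ?_ ?_ ?_ ?_ ?_ ?_ <;>
      simp [add_ap, toL_e_zpow, h0, h1, h2, h3, h4, h5]
    rw [this]
    exact mul_mem (mul_mem (mul_mem (mul_mem (mul_mem (he _ _) (he _ _)) (he _ _)) (he _ _))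
      (he _ _)) (he _ _)
  have h2 : ∀ X ∈ F2, X ∈ S := by
    intro X hX
    obtain ⟨h0, h1, h2⟩ := hX
    have hY : (e 3 ^ (toL X 3) * e 4 ^ (toL X 4) * e 5 ^ (toL X 5)) ∈ S :=
      mul_mem (mul_mem (he _ _) (he _ _)) (he _ _)
    have hZ : (e 3 ^ (toL X 3) * e 4 ^ (toL X 4) * e 5 ^ (toL X 5))⁻¹ * X ∈ F3 := by
      rw [mem_F3]
      simp only [mul0, mul1, mul2, mul3, mul4, mul5, toL_inv, neg_ap, toL_e_zpow, h0, h1, h2]
      simp
    have := mul_mem hY (h3 _ hZ)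
    rwa [mul_inv_cancel_left] at this
  intro X _
  have hY : (e 0 ^ (toL X 0) * e 1 ^ (toL X 1) * e 2 ^ (toL X 2)) ∈ S :=
    mul_mem (mul_mem (he _ _) (he _ _)) (he _ _)
  have hZ : (e 0 ^ (toL X 0) * e 1 ^ (toL X 1) * e 2 ^ (toL X 2))⁻¹ * X ∈ F2 := by
    rw [mem_F2]
    simp only [mul0, mul1, mul2, toL_inv, neg_ap, toL_e_zpow]
    simp
  have := mul_mem hY (h2 _ hZ)
  rwa [mul_inv_cancel_left] at this

end Pool.Agent.H5.Tame
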