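import Pool.Agent.H5.Tame.Ext

/-! A faithful nilpotent representation of `L ℚ` in which the group law of `N` becomes
multiplication of exponentials. -/

set_option autoImplicit false

namespace Pool.Agent.H5.Tame

/-- the grading derivation -/
def Dg (X : L ℚ) : L ℚ :=
  ![X 0, X 1, X 2, 2 * X 3, 2 * X 4, 2 * X 5,
    3 * X 6, 3 * X 7, 3 * X 8, 3 * X 9, 3 * X 10, 3 * X 11]

@[simp] lemma Dg0 (X : L ℚ) : Dg X 0 = X 0 := rfl
@[simp] lemma Dg1 (X : L ℚ) : Dg X 1 = X 1 := rfl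
@[simp] lemma Dg2 (X : L ℚ) : Dg X 2 = X 2 := rfl
@[simp] lemma Dg3 (X : L ℚ) : Dg X 3 = 2 * X 3 := rfl
@[simp] lemma Dg4 (X : L ℚ) : Dg X 4 = 2 * X 4 := rfl
@[simp] lemma Dg5 (X : L ℚ) : Dg X 5 = 2 * X 5 := rfl
@[simp] lemma Dg6 (X : L ℚ) : Dg X 6 = 3 * X 6 := rfl
@[simp] lemma Dg7 (X : L ℚ) : Dg X 7 = 3 * X 7 := rfl
@[simp] lemma Dg8 (X : L ℚ) : Dg X 8 = 3 * X 8 := rfl
@[simp] lemma Dg9 (X : L ℚ) : Dg X 9 = 3 * X 9 := rfl
@[simp] lemma Dg10 (X : L ℚ) : Dg X 10 = 3 * X 10 := rfl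
@[simp] lemma Dg11 (X : L ℚ) : Dg X 11 = 3 * X 11 := rfl

lemma Dg_add (X Y : L ℚ) : Dg (X + Y) = Dg X + Dg Y := by
  apply L.ext
  refine forall12 ?_ ?_ ?_ ?_ ?_ ?_ ?_ ?_ ?_ ?_ ?_ ?_ <;> simp [mul_add]

lemma Dg_smul (a : ℚ) (X : L ℚ) : Dg (a • X) = a • Dg X := by
  apply L.ext
  refine forall12 ?_ ?_ ?_ ?_ ?_ ?_ ?_ ?_ ?_ ?_ ?_ ?_ <;> simp <;> ring

lemma Dg_br (X Y : L ℚ) : Dg ⁅X, Y⁆ = ⁅Dg X, Y⁆ + ⁅X, Dg Y⁆ := by
  apply L.ext
  refine forall12 ?_ ?_ ?_ ?_ ?_ ?_ ?_ ?_ ?_ ?_ ?_ ?_ <;> simp <;> ring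

/-- the representation on `ℚ × L ℚ` -/
def repFun (X : L ℚ) : Module.End ℚ (ℚ × L ℚ) where
  toFun p := (0, p.1 • Dg X + ⁅X, p.2⁆)
  map_add' p q := by
    ext1
    · simp
    · change (p.1 + q.1) • Dg X + ⁅X, p.2 + q.2⁆ = (p.1 • Dg X + ⁅X, p.2⁆) + (q.1 • Dg X + ⁅X, q.2⁆)
      rw [lie_add, add_smul]; abel
  map_smul' a p := by
    ext1
    · simp
    · change (a • p.1) • Dg X + ⁅X, a • p.2⁆ = a • (p.1 • Dg X + ⁅X, p.2⁆)
      rw [lie_smul, smul_add, smul_eq_mul, mul_smul]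

lemma repFun_ap (X : L ℚ) (p : ℚ × L ℚ) : repFun X p = (0, p.1 • Dg X + ⁅X, p.2⁆) := rfl

/-- the representation as a linear map -/
def rep : L ℚ →ₗ[ℚ] Module.End ℚ (ℚ × L ℚ) where
  toFun := repFun
  map_add' X Y := by
    apply LinearMap.ext
    intro p
    rw [LinearMap.add_apply, repFun_ap, repFun_ap, repFun_ap]
    ext1
    · simp
    · change p.1 • Dg (X + Y) + ⁅X + Y, p.2⁆ = (p.1 • Dg X + ⁅X, p.2⁆) + (p.1 • Dg Y + ⁅Y, p.2⁆)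
      rw [Dg_add, add_lie, smul_add]; abel
  map_smul' a X := by
    apply LinearMap.ext
    intro p
    rw [LinearMap.smul_apply, repFun_ap, repFun_ap]
    ext1
    · simp
    · change p.1 • Dg (a • X) + ⁅a • X, p.2⁆ = a • (p.1 • Dg X + ⁅X, p.2⁆)
      rw [Dg_smul, smul_lie, smul_add, smul_comm]

lemma rep_ap (X : L ℚ) (p : ℚ × L ℚ) : rep X p = (0, p.1 • Dg X + ⁅X, p.2⁆) := rfl

lemma rep_lie (X Y : L ℚ) : rep ⁅X, Y⁆ = rep X * rep Y - rep Y * rep X := by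
  apply LinearMap.ext
  intro p
  rw [LinearMap.sub_apply, Module.End.mul_apply, Module.End.mul_apply]
  simp only [rep_ap]
  ext1
  · simp
  · change p.1 • Dg ⁅X, Y⁆ + ⁅⁅X, Y⁆, p.2⁆ =
      ((0 : ℚ) • Dg X + ⁅X, p.1 • Dg Y + ⁅Y, p.2⁆⁆) - ((0 : ℚ) • Dg Y + ⁅Y, p.1 • Dg X + ⁅X, p.2⁆⁆)
    rw [Dg_br, zero_smul, zero_smul, zero_add, zero_add, lie_add, lie_add, lie_smul, lie_smul,
      smul_add, lie_lie, ← lie_skew Y (Dg X), smul_neg]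
    abel

lemma rep_injective : Function.Injective rep := by
  intro X Y h
  have h1 := congrArg (fun f : Module.End ℚ (ℚ × L ℚ) => (f (1, 0)).2) h
  simp only [rep_ap, one_smul, lie_zero, add_zero] at h1
  apply L.ext
  have k := fun i => congrFun h1 i
  refine forall12 ?_ ?_ ?_ ?_ ?_ ?_ ?_ ?_ ?_ ?_ ?_ ?_
  · exact k 0
  · exact k 1
  · exact k 2
  · have := k 3; rw [Dg3, Dg3] at this; linarith
  · have := k 4; rw [Dg4, Dg4] at this; linarith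
  · have := k 5; rw [Dg5, Dg5] at this; linarith
  · have := k 6; rw [Dg6, Dg6] at this; linarith
  · have := k 7; rw [Dg7, Dg7] at this; linarith
  · have := k 8; rw [Dg8, Dg8] at this; linarith
  · have := k 9; rw [Dg9, Dg9] at this; linarith
  · have := k 10; rw [Dg10, Dg10] at this; linarith
  · have := k 11; rw [Dg11, Dg11] at this; linarith

lemma rep_pow_two (X : L ℚ) (p : ℚ × L ℚ) :
    (rep X ^ 2) p = (0, ⁅X, p.1 • Dg X + ⁅X, p.2⁆⁆) := by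
  rw [pow_two, Module.End.mul_apply, rep_ap, rep_ap]
  simp

lemma rep_pow_three (X : L ℚ) (p : ℚ × L ℚ) :
    (rep X ^ 3) p = (0, ⁅X, ⁅X, p.1 • Dg X + ⁅X, p.2⁆⁆⁆) := by
  rw [pow_succ', Module.End.mul_apply, rep_pow_two, rep_ap]
  simp

lemma rep_pow_four (X : L ℚ) : rep X ^ 4 = 0 := by
  apply LinearMap.ext
  intro p
  rw [pow_succ', Module.End.mul_apply, rep_pow_three, rep_ap]
  ext1
  · simp
  · change (0 : ℚ) • Dg X + ⁅X, ⁅X, ⁅X, p.1 • Dg X + ⁅X, p.2⁆⁆⁆⁆ = 0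
    generalize p.1 = c
    generalize p.2 = m
    apply L.ext
    refine forall12 ?_ ?_ ?_ ?_ ?_ ?_ ?_ ?_ ?_ ?_ ?_ ?_ <;>
    simp only [add_ap, smul_ap, zero_ap, br0, br1, br2, br3, br4, br5, br6, br7, br8, br9, br10,
      br11, Dg0, Dg1, Dg2, Dg3, Dg4, Dg5] <;> ring

lemma rep_nilpotent (X : L ℚ) : IsNilpotent (rep X) := ⟨4, rep_pow_four X⟩

lemma exp_rep (X : L ℚ) (p : ℚ × L ℚ) : IsNilpotent.exp (rep X) p =
    (p.1, p.2 + (p.1 • Dg X + ⁅X, p.2⁆) + (2 : ℚ)⁻¹ • ⁅X, p.1 • Dg X + ⁅X, p.2⁆⁆ +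
      (6 : ℚ)⁻¹ • ⁅X, ⁅X, p.1 • Dg X + ⁅X, p.2⁆⁆⁆) := by
  rw [IsNilpotent.exp_eq_sum (rep_pow_four X)]
  simp only [Finset.sum_range_succ, Finset.sum_range_zero, LinearMap.add_apply,
    LinearMap.smul_apply, pow_zero, pow_one, rep_pow_two, rep_pow_three, rep_ap,
    Module.End.one_apply, LinearMap.zero_apply]
  ext1
  · simp
  · simp [Nat.factorial]

lemma exp_rep_mul (X Y : L ℚ) :
    IsNilpotent.exp (rep ((12 : ℚ) • bch X Y)) =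
      IsNilpotent.exp (rep ((12 : ℚ) • X)) * IsNilpotent.exp (rep ((12 : ℚ) • Y)) := by
  apply LinearMap.ext
  intro p
  rw [Module.End.mul_apply]
  simp only [exp_rep]
  ext1
  · simp
  · generalize p.1 = c
    generalize p.2 = m
    apply L.ext
    refine forall12 ?_ ?_ ?_ ?_ ?_ ?_ ?_ ?_ ?_ ?_ ?_ ?_ <;>
    simp only [bch, add_ap, smul_ap, br0, br1, br2, br3, br4, br5, br6, br7, br8, br9, br10,
      br11, Dg0, Dg1, Dg2, Dg3, Dg4, Dg5, Dg6, Dg7, Dg8, Dg9, Dg10, Dg11] <;> ring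

/-- the logarithm -/
def logN (X : N) : L ℚ := (12 : ℚ) • castL (toL X)

lemma logN_injective : Function.Injective logN := by
  intro X Y h
  have h1 : castL (toL X) = castL (toL Y) := smul_right_injective _ (by norm_num) h
  exact toL_inj (castL_inj h1)

lemma exp_logN_mul (X Y : N) : IsNilpotent.exp (rep (logN (X * Y))) =
    IsNilpotent.exp (rep (logN X)) * IsNilpotent.exp (rep (logN Y)) := by
  unfold logN
  rw [toL_mul, castL_bch, exp_rep_mul]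

lemma exists_logN (v : L ℚ) : ∃ k : ℕ, 0 < k ∧ ∃ X : N, logN X = k • v := by
  obtain ⟨n, hn, X', hX⟩ := exists_den v
  refine ⟨12 * n, by positivity, toN X', ?_⟩
  rw [logN, toL_toN, ← hX]
  rw [smul_smul, ← Nat.cast_smul_eq_nsmul ℚ]
  push_cast
  rfl

lemma Phi_logN (φ : MulAut N) (X : N) : Phi φ (logN X) = logN (φ X) := by
  rw [Phi_ap, logN, map_smul, extL_cast]
  rfl

end Pool.Agent.H5.Tame
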