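import Pool.Agent.H5.Tame.Ext

/-! Every automorphism of `N` has an eigenvalue of absolute value one. -/

set_option autoImplicit false

namespace Pool.Agent.H5.Tame

open Polynomial

/-- A root of the characteristic polynomial read off from an eigen-functional on an invariant
subspace. -/
lemma isRoot_charpoly_of_functional {V : Type} [AddCommGroup V] [Module ℚ V]
    [Module.Finite ℚ V] [Module.Free ℚ V] (f : V →ₗ[ℚ] V) (P : Submodule ℚ V) (l : V →ₗ[ℚ] ℂ)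
    (z : ℂ) (h : ∀ X ∈ P, f X ∈ P ∧ l (f X) = z * l X) {X₀ : V} (hX : X₀ ∈ P) (hl : l X₀ ≠ 0) :
    (f.charpoly.map (algebraMap ℚ ℂ)).IsRoot z := by
  have key : ∀ (q : ℚ[X]), ∀ X ∈ P, aeval f q X ∈ P ∧ l (aeval f q X) = aeval z q * l X := by
    intro q
    induction q using Polynomial.induction_on with
    | C a =>
      intro X hX
      rw [aeval_C, aeval_C, Module.algebraMap_end_apply]
      refine ⟨P.smul_mem a hX, ?_⟩
      rw [map_smul, Algebra.smul_def]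
    | add p q hp hq =>
      intro X hX
      rw [map_add, LinearMap.add_apply]
      refine ⟨P.add_mem (hp X hX).1 (hq X hX).1, ?_⟩
      rw [map_add, (hp X hX).2, (hq X hX).2, map_add, add_mul]
    | monomial n a ih =>
      intro X hX
      have e1 : aeval f (C a * Polynomial.X ^ (n + 1) : ℚ[X]) X =
          aeval f (C a * Polynomial.X ^ n : ℚ[X]) (f X) := by
        rw [pow_succ, ← mul_assoc, map_mul, aeval_X]
        rfl
      have e2 : aeval z (C a * Polynomial.X ^ (n + 1) : ℚ[X]) =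
          aeval z (C a * Polynomial.X ^ n : ℚ[X]) * z := by
        rw [pow_succ, ← mul_assoc, map_mul, aeval_X]
      obtain ⟨h1, h2⟩ := h X hX
      obtain ⟨h3, h4⟩ := ih (f X) h1
      rw [e1, e2]
      refine ⟨h3, ?_⟩
      rw [h4, h2]
      ring
  have h1 := (key f.charpoly X₀ hX).2
  rw [LinearMap.aeval_self_charpoly, LinearMap.zero_apply, map_zero] at h1
  have h2 : aeval z f.charpoly = 0 := by
    rcases mul_eq_zero.1 h1.symm with h | h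
    · exact h
    · exact absurd h hl
  rw [IsRoot.def, eval_map_algebraMap]
  exact h2

/-- the eigen-functional in degree three -/
noncomputable def ell : L ℚ →ₗ[ℚ] ℂ where
  toFun X := ((X 6 : ℂ) + X 8 * s + X 10 * s ^ 2) * t ^ 2 + ((X 7 : ℂ) + X 9 * s + X 11 * s ^ 2) * t
  map_add' X Y := by simp only [add_ap]; push_cast; ring
  map_smul' a X := by
    simp only [smul_ap, RingHom.id_apply, Algebra.smul_def]
    push_cast
    simp only [eq_ratCast]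
    ring

lemma ell_ap (X : L ℚ) : ell X = ((X 6 : ℂ) + X 8 * s + X 10 * s ^ 2) * t ^ 2 +
    ((X 7 : ℂ) + X 9 * s + X 11 * s ^ 2) * t := rfl

/-- value of the functional on a triple bracket -/
lemma ell_triple (X Y Z : L ℤ) : ell (castL ⁅X, ⁅Y, Z⁆⁆) =
    (X 0 + X 1 * s + X 2 * s ^ 2) *
      (((Y 1 : ℂ) * Z 2 - Y 2 * Z 1) + ((Y 2 : ℂ) * Z 0 - Y 0 * Z 2) * t ^ 2 +
        ((Y 0 : ℂ) * Z 1 - Y 1 * Z 0) * t) := by
  have h1 := wv_zero
  have h2 := t_cube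
  rw [ell_ap]
  simp only [castL_ap, br0, br1, br2, br3, br4, br5, br6, br7, br8, br9, br10, br11]
  push_cast
  linear_combination (-((Y 1 : ℂ) * Z 2 - Y 2 * Z 1) * (X 0 + X 1 * t + X 2 * t ^ 2)) * h1 +
    (((Y 1 : ℂ) * Z 2 - Y 2 * Z 1) * (s * (X 1 + X 2 * t) + s ^ 2 * X 2)) * h2

section

variable (φ : MulAut N)

lemma und_low (X : L ℤ) (i : Fin 12) (hi : i = 0 ∨ i = 1 ∨ i = 2) :
    und φ X i = und φ (E 0) i * X 0 + und φ (E 1) i * X 1 + und φ (E 2) i * X 2 := by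
  set Y : L ℤ := X - (X 0 • E 0 + X 1 • E 1 + X 2 • E 2) with hY
  have hD : D2 Y := by
    refine ⟨?_, ?_, ?_⟩ <;> simp [hY, E_ap]
  have hX : X = (X 0 • E 0 + X 1 • E 1 + X 2 • E 2) + Y := by rw [hY]; abel
  have hu : und φ X = (X 0 • und φ (E 0) + X 1 • und φ (E 1) + X 2 • und φ (E 2)) + und φ Y := by
    conv_lhs => rw [hX]
    rw [und_add, und_add, und_add, und_zsmul, und_zsmul, und_zsmul]
  have hDu := und_D2 φ hD
  obtain ⟨h0, h1, h2⟩ := hDu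
  rw [hu]
  simp only [add_ap, zsmul_ap, smul_eq_mul]
  rcases hi with rfl | rfl | rfl
  · rw [h0]; ring
  · rw [h1]; ring
  · rw [h2]; ring

/-- the induced matrix in degree one -/
def G : Matrix (Fin 3) (Fin 3) ℤ :=
  !![und φ (E 0) 0, und φ (E 1) 0, und φ (E 2) 0;
     und φ (E 0) 1, und φ (E 1) 1, und φ (E 2) 1;
     und φ (E 0) 2, und φ (E 1) 2, und φ (E 2) 2]

lemma G_mul (ψ : MulAut N) : G (φ * ψ) = G φ * G ψ := by
  have h : ∀ X, und (φ * ψ) X = und φ (und ψ X) := fun X => rfl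
  ext i j
  fin_cases i <;> fin_cases j <;>
  simp [G, Matrix.mul_apply, Fin.sum_univ_three, h] <;>
  rw [und_low φ _ _ (by simp)]

lemma G_one : G 1 = 1 := by
  have h : ∀ X, und 1 X = X := fun X => rfl
  ext i j
  fin_cases i <;> fin_cases j <;> simp [G, h, E_ap]

lemma det_G : (G φ).det = 1 ∨ (G φ).det = -1 := by
  have h : (G φ).det * (G φ⁻¹).det = 1 := by
    rw [← Matrix.det_mul, ← G_mul, mul_inv_cancel, G_one, Matrix.det_one]
  exact Int.isUnit_iff.1 (IsUnit.of_mul_eq_one _ h)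

/-- the defining relation of the Lie ring -/
lemma relation : ⁅E 1, ⁅E 1, E 2⁆⁆ + ⁅E 2, ⁅E 2, E 0⁆⁆ + ⁅E 0 + E 1, ⁅E 0, E 1⁆⁆ = 0 := by
  apply L.ext
  refine forall12 ?_ ?_ ?_ ?_ ?_ ?_ ?_ ?_ ?_ ?_ ?_ ?_ <;>
  simp [E_ap]

lemma relation_und : ⁅und φ (E 1), ⁅und φ (E 1), und φ (E 2)⁆⁆ +
    ⁅und φ (E 2), ⁅und φ (E 2), und φ (E 0)⁆⁆ +
    ⁅und φ (E 0) + und φ (E 1), ⁅und φ (E 0), und φ (E 1)⁆⁆ = 0 := by
  have h := congrArg (und φ) relation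
  rw [und_add, und_add, und_br_br, und_br_br, und_br_br, und_add] at h
  rw [h]
  exact map_zero (undHom φ)

/-- the relation forces the matrix of degree-one coefficients to send the real eigenvector to a
multiple of itself (up to a scalar) -/
lemma eigen_aux (x0 x1 x2 y0 y1 y2 z0 z1 z2 : ℝ)
    (C : Fin 3 → Fin 3 → ℝ)
    (hC : ∀ i j, C i j = ![y0, y1, y2] i *
        ![y1 * z2 - y2 * z1, y2 * z0 - y0 * z2, y0 * z1 - y1 * z0] j +
      ![z0, z1, z2] i * ![z1 * x2 - z2 * x1, z2 * x0 - z0 * x2, z0 * x1 - z1 * x0] j +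
      ![x0 + y0, x1 + y1, x2 + y2] i *
        ![x1 * y2 - x2 * y1, x2 * y0 - x0 * y2, x0 * y1 - x1 * y0] j)
    (h6 : C 0 1 - C 2 0 = 0) (h7 : C 0 2 - C 1 0 = 0) (h8 : C 1 1 - C 0 0 - C 2 0 = 0)
    (h9 : C 1 2 - C 1 0 - C 2 0 = 0) (h10 : C 2 1 - C 1 0 = 0)
    (h11 : C 2 2 - C 0 0 - C 2 0 = 0) (d : ℝ)
    (hd : d = x0 * (y1 * z2 - y2 * z1) + x1 * (y2 * z0 - y0 * z2) + x2 * (y0 * z1 - y1 * z0)) :
    (C 0 0 + C 1 0 * r + C 2 0 * r ^ 2) * (x0 + x1 * r + x2 * r ^ 2) =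
      d * (y0 + y1 * r + y2 * r ^ 2) ∧
    (C 0 0 + C 1 0 * r + C 2 0 * r ^ 2) * (y0 + y1 * r + y2 * r ^ 2) =
      d * (z0 + z1 * r + z2 * r ^ 2) ∧
    (C 0 0 + C 1 0 * r + C 2 0 * r ^ 2) * (z0 + z1 * r + z2 * r ^ 2) =
      d * ((x0 + y0) + (x1 + y1) * r + (x2 + y2) * r ^ 2) := by
  have hr := r_cube
  have e : ∀ v0 v1 v2 : ℝ, (C 0 0 + C 1 0 * r + C 2 0 * r ^ 2) * (v0 + v1 * r + v2 * r ^ 2) =
      (C 0 0 * v0 + C 0 1 * v1 + C 0 2 * v2) + (C 1 0 * v0 + C 1 1 * v1 + C 1 2 * v2) * r +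
      (C 2 0 * v0 + C 2 1 * v1 + C 2 2 * v2) * r ^ 2 := by
    intro v0 v1 v2
    linear_combination (C 2 0 * v1 + (C 1 0 + C 2 0 * r) * v2) * hr -
      v1 * (h6 + r * h8 + r ^ 2 * h10) - v2 * (h7 + r * h9 + r ^ 2 * h11)
  refine ⟨?_, ?_, ?_⟩
  · rw [e, hd]
    simp only [hC]
    simp
    ring
  · rw [e, hd]
    simp only [hC]
    simp
    ring
  · rw [e, hd]
    simp only [hC]
    simp
    ring

lemma shape_aux (x0 x1 x2 y0 y1 y2 z0 z1 z2 : ℤ) (p d : ℝ)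
    (hd : d = 1 ∨ d = -1) (hx : ¬ (x0 = 0 ∧ x1 = 0 ∧ x2 = 0))
    (e0 : p * (x0 + x1 * r + x2 * r ^ 2) = d * (y0 + y1 * r + y2 * r ^ 2))
    (e1 : p * (y0 + y1 * r + y2 * r ^ 2) = d * (z0 + z1 * r + z2 * r ^ 2))
    (e2 : p * (z0 + z1 * r + z2 * r ^ 2) =
      d * ((x0 + y0) + (x1 + y1) * r + (x2 + y2) * r ^ 2)) :
    y0 = x2 ∧ y1 = x0 + x2 ∧ y2 = x1 ∧ z0 = x1 ∧ z1 = x1 + x2 ∧ z2 = x0 + x2 := by
  have hr := r_cube
  have hd2 : d * d = 1 := by rcases hd with h | h <;> rw [h] <;> norm_num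
  set wx : ℝ := x0 + x1 * r + x2 * r ^ 2 with hwx
  set wy : ℝ := y0 + y1 * r + y2 * r ^ 2 with hwy
  set wz : ℝ := z0 + z1 * r + z2 * r ^ 2 with hwz
  have hne : wx ≠ 0 := by
    intro h
    exact hx (lin_indep h)
  have e2' : p * wz = d * (wx + wy) := by rw [e2, hwx, hwy]; ring
  have f0 : wy = (p * d) * wx := by linear_combination (-wy) * hd2 - d * e0
  have f1 : wz = (p * d) * wy := by linear_combination (-wz) * hd2 - d * e1
  have f2 : wx + wy = (p * d) * wz := by linear_combination (-(wx + wy)) * hd2 - d * e2'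
  have hq : (p * d) ^ 3 = p * d + 1 := by
    apply mul_right_cancel₀ hne
    linear_combination (-(p * d)^2) * f0 - (p * d) * f1 - f2 + f0
  have hq' : p * d = r := real_root_unique hq
  rw [hq'] at f0 f1
  have g0 : ((y0 - x2 : ℤ) : ℝ) + ((y1 - (x0 + x2) : ℤ) : ℝ) * r + ((y2 - x1 : ℤ) : ℝ) * r ^ 2 = 0 := by
    push_cast
    rw [hwx, hwy] at f0
    linear_combination f0 + x2 * hr
  have g1 : ((z0 - y2 : ℤ) : ℝ) + ((z1 - (y0 + y2) : ℤ) : ℝ) * r + ((z2 - y1 : ℤ) : ℝ) * r ^ 2 = 0 := by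
    push_cast
    rw [hwz, hwy] at f1
    linear_combination f1 + y2 * hr
  obtain ⟨a0, a1, a2⟩ := lin_indep g0
  obtain ⟨b0, b1, b2⟩ := lin_indep g1
  refine ⟨?_, ?_, ?_, ?_, ?_, ?_⟩ <;> omega

lemma G_shape :
    und φ (E 1) 0 = und φ (E 0) 2 ∧ und φ (E 1) 1 = und φ (E 0) 0 + und φ (E 0) 2 ∧
    und φ (E 1) 2 = und φ (E 0) 1 ∧ und φ (E 2) 0 = und φ (E 0) 1 ∧
    und φ (E 2) 1 = und φ (E 0) 1 + und φ (E 0) 2 ∧
    und φ (E 2) 2 = und φ (E 0) 0 + und φ (E 0) 2 := by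
  have hrel := relation_und φ
  have hdet := det_G φ
  rw [G, Matrix.det_fin_three] at hdet
  simp only [Matrix.of_apply, Matrix.cons_val', Matrix.cons_val_zero, Matrix.cons_val_one,
    Matrix.cons_val_two, Matrix.empty_val', Matrix.cons_val_fin_one,
    Matrix.head_cons, Matrix.tail_cons, Matrix.head_fin_const] at hdet
  have k6 := congrFun hrel 6
  have k7 := congrFun hrel 7
  have k8 := congrFun hrel 8
  have k9 := congrFun hrel 9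
  have k10 := congrFun hrel 10
  have k11 := congrFun hrel 11
  simp only [add_ap, zero_ap, br0, br1, br2, br3, br4, br5, br6, br7, br8, br9, br10, br11]
    at k6 k7 k8 k9 k10 k11
  generalize und φ (E 0) 0 = x0 at *
  generalize und φ (E 0) 1 = x1 at *
  generalize und φ (E 0) 2 = x2 at *
  generalize und φ (E 1) 0 = y0 at *
  generalize und φ (E 1) 1 = y1 at *
  generalize und φ (E 1) 2 = y2 at *
  generalize und φ (E 2) 0 = z0 at *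
  generalize und φ (E 2) 1 = z1 at *
  generalize und φ (E 2) 2 = z2 at *
  clear hrel
  have c6 := congrArg (Int.cast : ℤ → ℝ) k6
  have c7 := congrArg (Int.cast : ℤ → ℝ) k7
  have c8 := congrArg (Int.cast : ℤ → ℝ) k8
  have c9 := congrArg (Int.cast : ℤ → ℝ) k9
  have c10 := congrArg (Int.cast : ℤ → ℝ) k10
  have c11 := congrArg (Int.cast : ℤ → ℝ) k11
  push_cast at c6 c7 c8 c9 c10 c11
  obtain ⟨e0, e1, e2⟩ := eigen_aux x0 x1 x2 y0 y1 y2 z0 z1 z2 (fun i j =>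
      ![(y0 : ℝ), y1, y2] i *
        ![(y1 : ℝ) * z2 - y2 * z1, (y2 : ℝ) * z0 - y0 * z2, (y0 : ℝ) * z1 - y1 * z0] j +
      ![(z0 : ℝ), z1, z2] i *
        ![(z1 : ℝ) * x2 - z2 * x1, (z2 : ℝ) * x0 - z0 * x2, (z0 : ℝ) * x1 - z1 * x0] j +
      ![(x0 + y0 : ℝ), x1 + y1, x2 + y2] i *
        ![(x1 : ℝ) * y2 - x2 * y1, (x2 : ℝ) * y0 - x0 * y2, (x0 : ℝ) * y1 - x1 * y0] j)
      (fun i j => rfl)
      (by simp; linear_combination c6) (by simp; linear_combination c7)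
      (by simp; linear_combination c8) (by simp; linear_combination c9)
      (by simp; linear_combination c10) (by simp; linear_combination c11) _ rfl
  refine shape_aux x0 x1 x2 y0 y1 y2 z0 z1 z2 _ _ ?_ ?_ e0 e1 e2
  · rcases hdet with h | h
    · left
      have := congrArg (Int.cast : ℤ → ℝ) h
      push_cast at this
      linear_combination this
    · right
      have := congrArg (Int.cast : ℤ → ℝ) h
      push_cast at this
      linear_combination this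
  · rintro ⟨rfl, rfl, rfl⟩
    rcases hdet with h | h <;> simp at h

/-- the unit of `ℤ[s]` by which `φ` acts, at the root `s` -/
noncomputable def ps : ℂ := und φ (E 0) 0 + und φ (E 0) 1 * s + und φ (E 0) 2 * s ^ 2
/-- the same at the root `t` -/
noncomputable def pt : ℂ := und φ (E 0) 0 + und φ (E 0) 1 * t + und φ (E 0) 2 * t ^ 2

lemma pt_eq_conj : pt φ = (starRingEnd ℂ) (ps φ) := by
  simp [ps, pt, t]

/-- the determinant as a complex number -/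
noncomputable def dd : ℂ := ((G φ).det : ℂ)

lemma norm_dd : ‖dd φ‖ = 1 := by
  rcases det_G φ with h | h <;> simp [dd, h]

lemma low0 (X : L ℤ) : und φ X 0 =
    und φ (E 0) 0 * X 0 + und φ (E 0) 2 * X 1 + und φ (E 0) 1 * X 2 := by
  rw [und_low φ X 0 (by simp), (G_shape φ).1, (G_shape φ).2.2.2.1]
lemma low1 (X : L ℤ) : und φ X 1 =
    und φ (E 0) 1 * X 0 + (und φ (E 0) 0 + und φ (E 0) 2) * X 1 +
      (und φ (E 0) 1 + und φ (E 0) 2) * X 2 := by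
  rw [und_low φ X 1 (by simp), (G_shape φ).2.1, (G_shape φ).2.2.2.2.1]
lemma low2 (X : L ℤ) : und φ X 2 =
    und φ (E 0) 2 * X 0 + und φ (E 0) 1 * X 1 + (und φ (E 0) 0 + und φ (E 0) 2) * X 2 := by
  rw [und_low φ X 2 (by simp), (G_shape φ).2.2.1, (G_shape φ).2.2.2.2.2]

lemma dd_eq : dd φ = (und φ (E 0) 0 : ℂ) *
      (((und φ (E 0) 0 + und φ (E 0) 2) * (und φ (E 0) 0 + und φ (E 0) 2) : ℂ) -
        (und φ (E 0) 1 + und φ (E 0) 2) * und φ (E 0) 1) -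
      und φ (E 0) 2 * (und φ (E 0) 1 * (und φ (E 0) 0 + und φ (E 0) 2) -
        (und φ (E 0) 1 + und φ (E 0) 2) * und φ (E 0) 2) +
      und φ (E 0) 1 * (und φ (E 0) 1 * und φ (E 0) 1 -
        (und φ (E 0) 0 + und φ (E 0) 2) * und φ (E 0) 2) := by
  obtain ⟨h1, h2, h3, h4, h5, h6⟩ := G_shape φ
  rw [dd, G, Matrix.det_fin_three]
  simp [h1, h2, h3, h4, h5, h6]
  ring

lemma pt_ne_zero : pt φ ≠ 0 := by
  intro h
  have h2 : ps φ = 0 := by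
    have := pt_eq_conj φ
    rw [h] at this
    exact (map_eq_zero (starRingEnd ℂ)).1 this.symm
  rw [ps] at h2
  rw [pt] at h
  have h3 : ((und φ (E 0) 1 : ℂ) - und φ (E 0) 2 * r) = 0 := by
    have hst : s - t ≠ 0 := sub_ne_zero.2 s_ne_t
    apply mul_left_cancel₀ hst
    have := s_add_t
    linear_combination h2 - h - (s - t) * und φ (E 0) 2 * this
  have h4 : (((0 : ℤ) : ℝ)) + ((und φ (E 0) 1 : ℤ) : ℝ) * r + ((0 : ℤ) : ℝ) * r ^ 2 =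
      ((und φ (E 0) 1 : ℤ) : ℝ) * r := by push_cast; ring
  have h5 : (((und φ (E 0) 1 : ℤ) : ℝ)) + ((-(und φ (E 0) 2) : ℤ) : ℝ) * r
      + ((0 : ℤ) : ℝ) * r ^ 2 = 0 := by
    have : ((((und φ (E 0) 1 : ℤ) : ℝ) - ((und φ (E 0) 2 : ℤ) : ℝ) * r : ℝ) : ℂ) = 0 := by
      push_cast
      exact h3
    have h6 : (((und φ (E 0) 1 : ℤ) : ℝ) - ((und φ (E 0) 2 : ℤ) : ℝ) * r) = 0 := by
      exact_mod_cast this
    push_cast
    linear_combination h6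
  obtain ⟨b0, c0, _⟩ := lin_indep h5
  have c0' : und φ (E 0) 2 = 0 := by omega
  have a0 : und φ (E 0) 0 = 0 := by
    rw [b0, c0'] at h
    simpa using h
  have hn := norm_dd φ
  rw [dd_eq, a0, b0, c0'] at hn
  simp at hn

lemma w_low (X : L ℤ) : ((und φ X 0 : ℂ) + und φ X 1 * s + und φ X 2 * s ^ 2) =
    ps φ * (X 0 + X 1 * s + X 2 * s ^ 2) := by
  rw [low0 φ X, low1 φ X, low2 φ X, ps]
  push_cast
  have := s_cube
  linear_combination (-((und φ (E 0) 2 : ℂ) * X 1 + (und φ (E 0) 1 + und φ (E 0) 2 * s) * X 2)) * this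

lemma v_low (Y Z : L ℤ) :
    pt φ * (((und φ Y 1 : ℂ) * und φ Z 2 - und φ Y 2 * und φ Z 1) +
      ((und φ Y 2 : ℂ) * und φ Z 0 - und φ Y 0 * und φ Z 2) * t ^ 2 +
      ((und φ Y 0 : ℂ) * und φ Z 1 - und φ Y 1 * und φ Z 0) * t) =
    dd φ * (((Y 1 : ℂ) * Z 2 - Y 2 * Z 1) + ((Y 2 : ℂ) * Z 0 - Y 0 * Z 2) * t ^ 2 +
        ((Y 0 : ℂ) * Z 1 - Y 1 * Z 0) * t) := by
  rw [low0 φ Y, low1 φ Y, low2 φ Y, low0 φ Z, low1 φ Z, low2 φ Z, dd_eq, pt]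
  push_cast
  have := t_cube
  generalize (und φ (E 0) 0 : ℂ) = a
  generalize (und φ (E 0) 1 : ℂ) = b
  generalize (und φ (E 0) 2 : ℂ) = c
  generalize (Y 0 : ℂ) = y0
  generalize (Y 1 : ℂ) = y1
  generalize (Y 2 : ℂ) = y2
  generalize (Z 0 : ℂ) = z0
  generalize (Z 1 : ℂ) = z1
  generalize (Z 2 : ℂ) = z2
  -- `(G Y × G Z) · (G v) = det G (Y × Z) · v` and `G v = pt v`
  linear_combination ((b + c * t) * ((c * y0 + b * y1 + (a + c) * y2) *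
      (a * z0 + c * z1 + b * z2) - (a * y0 + c * y1 + b * y2) *
      (c * z0 + b * z1 + (a + c) * z2)) + c * ((a * y0 + c * y1 + b * y2) *
      (b * z0 + (a + c) * z1 + (b + c) * z2) - (b * y0 + (a + c) * y1 + (b + c) * y2) *
      (a * z0 + c * z1 + b * z2))) * this

lemma ell_und (X Y Z : L ℤ) : pt φ * ell (castL (und φ ⁅X, ⁅Y, Z⁆⁆)) =
    dd φ * ps φ * ell (castL ⁅X, ⁅Y, Z⁆⁆) := by
  rw [und_br_br, ell_triple, ell_triple, w_low]
  linear_combination (ps φ * (X 0 + X 1 * s + X 2 * s ^ 2)) * v_low φ Y Z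

/-- the eigenvalue of absolute value one -/
noncomputable def zz : ℂ := dd φ * ps φ / pt φ

lemma norm_zz : ‖zz φ‖ = 1 := by
  have h1 : ‖pt φ‖ = ‖ps φ‖ := by
    rw [pt_eq_conj, Complex.norm_conj]
  have h2 : ‖pt φ‖ ≠ 0 := norm_ne_zero_iff.2 (pt_ne_zero φ)
  rw [zz, norm_div, norm_mul, norm_dd, one_mul, h1, div_self]
  rwa [← h1]

lemma ell_zz (X Y Z : L ℤ) : ell (castL (und φ ⁅X, ⁅Y, Z⁆⁆)) =
    zz φ * ell (castL ⁅X, ⁅Y, Z⁆⁆) := by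
  have h := ell_und φ X Y Z
  have h2 := pt_ne_zero φ
  rw [zz]
  field_simp
  linear_combination h

/-- the degree-three part -/
def P3 : Submodule ℚ (L ℚ) where
  carrier := {X | X 0 = 0 ∧ X 1 = 0 ∧ X 2 = 0 ∧ X 3 = 0 ∧ X 4 = 0 ∧ X 5 = 0}
  add_mem' := by
    rintro X Y ⟨h0, h1, h2, h3, h4, h5⟩ ⟨k0, k1, k2, k3, k4, k5⟩
    refine ⟨?_, ?_, ?_, ?_, ?_, ?_⟩ <;> simp [*]
  zero_mem' := ⟨rfl, rfl, rfl, rfl, rfl, rfl⟩
  smul_mem' := by
    rintro a X ⟨h0, h1, h2, h3, h4, h5⟩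
    refine ⟨?_, ?_, ?_, ?_, ?_, ?_⟩ <;> simp [*]

lemma mem_P3 {X : L ℚ} : X ∈ P3 ↔ X 0 = 0 ∧ X 1 = 0 ∧ X 2 = 0 ∧ X 3 = 0 ∧ X 4 = 0 ∧ X 5 = 0 :=
  Iff.rfl

lemma castL_triple_mem (X Y Z : L ℤ) : castL ⁅X, ⁅Y, Z⁆⁆ ∈ P3 := by
  rw [mem_P3]
  simp only [castL_ap, br0, br1, br2, br3, br4, br5]
  simp

lemma E6 : E 6 = ⁅E 0, ⁅E 2, E 0⁆⁆ := by
  apply L.ext
  refine forall12 ?_ ?_ ?_ ?_ ?_ ?_ ?_ ?_ ?_ ?_ ?_ ?_ <;> simp [E_ap]
lemma E7 : E 7 = ⁅E 0, ⁅E 0, E 1⁆⁆ := by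
  apply L.ext
  refine forall12 ?_ ?_ ?_ ?_ ?_ ?_ ?_ ?_ ?_ ?_ ?_ ?_ <;> simp [E_ap]
lemma E8 : E 8 = ⁅E 1, ⁅E 2, E 0⁆⁆ := by
  apply L.ext
  refine forall12 ?_ ?_ ?_ ?_ ?_ ?_ ?_ ?_ ?_ ?_ ?_ ?_ <;> simp [E_ap]
lemma E9 : E 9 = ⁅E 1, ⁅E 0, E 1⁆⁆ := by
  apply L.ext
  refine forall12 ?_ ?_ ?_ ?_ ?_ ?_ ?_ ?_ ?_ ?_ ?_ ?_ <;> simp [E_ap]
lemma E10 : E 10 = ⁅E 2, ⁅E 2, E 0⁆⁆ := by
  apply L.ext
  refine forall12 ?_ ?_ ?_ ?_ ?_ ?_ ?_ ?_ ?_ ?_ ?_ ?_ <;> simp [E_ap]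
lemma E11 : E 11 = ⁅E 2, ⁅E 0, E 1⁆⁆ := by
  apply L.ext
  refine forall12 ?_ ?_ ?_ ?_ ?_ ?_ ?_ ?_ ?_ ?_ ?_ ?_ <;> simp [E_ap]

lemma P3_span {X : L ℚ} (hX : X ∈ P3) : X = X 6 • castL (E 6) + X 7 • castL (E 7) +
    X 8 • castL (E 8) + X 9 • castL (E 9) + X 10 • castL (E 10) + X 11 • castL (E 11) := by
  obtain ⟨h0, h1, h2, h3, h4, h5⟩ := hX
  apply L.ext
  refine forall12 ?_ ?_ ?_ ?_ ?_ ?_ ?_ ?_ ?_ ?_ ?_ ?_ <;>
  simp [E_ap, h0, h1, h2, h3, h4, h5]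

lemma P3_eigen {X : L ℚ} (hX : X ∈ P3) :
    extL (und φ) X ∈ P3 ∧ ell (extL (und φ) X) = zz φ * ell X := by
  have h : ∀ A B C : L ℤ, extL (und φ) (castL ⁅A, ⁅B, C⁆⁆) ∈ P3 ∧
      ell (extL (und φ) (castL ⁅A, ⁅B, C⁆⁆)) = zz φ * ell (castL ⁅A, ⁅B, C⁆⁆) := by
    intro A B C
    rw [extL_cast]
    refine ⟨?_, ell_zz φ A B C⟩
    rw [und_br_br]
    exact castL_triple_mem _ _ _
  have k6 := h (E 0) (E 2) (E 0)
  have k7 := h (E 0) (E 0) (E 1)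
  have k8 := h (E 1) (E 2) (E 0)
  have k9 := h (E 1) (E 0) (E 1)
  have k10 := h (E 2) (E 2) (E 0)
  have k11 := h (E 2) (E 0) (E 1)
  rw [← E6] at k6
  rw [← E7] at k7
  rw [← E8] at k8
  rw [← E9] at k9
  rw [← E10] at k10
  rw [← E11] at k11
  have hs := P3_span hX
  generalize X 6 = x6 at hs
  generalize X 7 = x7 at hs
  generalize X 8 = x8 at hs
  generalize X 9 = x9 at hs
  generalize X 10 = x10 at hs
  generalize X 11 = x11 at hs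
  subst hs
  simp only [map_add, map_smul]
  refine ⟨?_, ?_⟩
  · exact P3.add_mem (P3.add_mem (P3.add_mem (P3.add_mem (P3.add_mem
      (P3.smul_mem _ k6.1) (P3.smul_mem _ k7.1)) (P3.smul_mem _ k8.1)) (P3.smul_mem _ k9.1))
      (P3.smul_mem _ k10.1)) (P3.smul_mem _ k11.1)
  · rw [k6.2, k7.2, k8.2, k9.2, k10.2, k11.2]
    simp only [mul_add, mul_smul_comm]

lemma isRoot_zz : ((Phi φ : L ℚ →ₗ[ℚ] L ℚ).charpoly.map (algebraMap ℚ ℂ)).IsRoot (zz φ) := by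
  have h : (Phi φ : L ℚ →ₗ[ℚ] L ℚ) = extL (und φ) := by
    apply LinearMap.ext
    intro X
    rfl
  rw [h]
  refine isRoot_charpoly_of_functional (extL (und φ)) P3 ell (zz φ) (fun X hX => P3_eigen φ hX)
    (X₀ := castL (E 7)) ?_ ?_
  · rw [E7]; exact castL_triple_mem _ _ _
  · rw [ell_ap]
    simp [E_ap, t_ne_zero]

end

end Pool.Agent.H5.Tame
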