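import Pool.Agent.H5.Tame.Ext

/-! The automorphism of `N` given by multiplication by the unit `α` (`α ^ 3 = α + 1`), all of whose
powers have finitely many twisted conjugacy classes. -/

set_option autoImplicit false

namespace Pool.Agent.H5.Tame

/-- the automorphism on coordinates -/
def fA (X : L ℤ) : L ℤ :=
  ![X 2, X 0 + X 2, X 1, -X 3 + X 5, X 3, X 4,
    -X 9, X 10 - X 7 - X 11, -X 11 - X 9, X 6 + X 10 - X 7 - X 11 - X 9, -X 7 - X 11,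
    X 8 - X 11 - X 9]

/-- its inverse on coordinates -/
def fB (X : L ℤ) : L ℤ :=
  ![-X 0 + X 1, X 2, X 0, X 4, X 5, X 3 + X 4,
    -X 7 + X 9 - X 6, -X 6 + X 8 - X 10, X 11 - X 8, -X 6, X 7 - X 10, X 6 - X 8]

@[simp] lemma fA0 (X : L ℤ) : fA X 0 = X 2 := rfl
@[simp] lemma fA1 (X : L ℤ) : fA X 1 = X 0 + X 2 := rfl
@[simp] lemma fA2 (X : L ℤ) : fA X 2 = X 1 := rfl
@[simp] lemma fA3 (X : L ℤ) : fA X 3 = -X 3 + X 5 := rfl
@[simp] lemma fA4 (X : L ℤ) : fA X 4 = X 3 := rfl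
@[simp] lemma fA5 (X : L ℤ) : fA X 5 = X 4 := rfl
@[simp] lemma fA6 (X : L ℤ) : fA X 6 = -X 9 := rfl
@[simp] lemma fA7 (X : L ℤ) : fA X 7 = X 10 - X 7 - X 11 := rfl
@[simp] lemma fA8 (X : L ℤ) : fA X 8 = -X 11 - X 9 := rfl
@[simp] lemma fA9 (X : L ℤ) : fA X 9 = X 6 + X 10 - X 7 - X 11 - X 9 := rfl
@[simp] lemma fA10 (X : L ℤ) : fA X 10 = -X 7 - X 11 := rfl
@[simp] lemma fA11 (X : L ℤ) : fA X 11 = X 8 - X 11 - X 9 := rfl

@[simp] lemma fB0 (X : L ℤ) : fB X 0 = -X 0 + X 1 := rfl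
@[simp] lemma fB1 (X : L ℤ) : fB X 1 = X 2 := rfl
@[simp] lemma fB2 (X : L ℤ) : fB X 2 = X 0 := rfl
@[simp] lemma fB3 (X : L ℤ) : fB X 3 = X 4 := rfl
@[simp] lemma fB4 (X : L ℤ) : fB X 4 = X 5 := rfl
@[simp] lemma fB5 (X : L ℤ) : fB X 5 = X 3 + X 4 := rfl
@[simp] lemma fB6 (X : L ℤ) : fB X 6 = -X 7 + X 9 - X 6 := rfl
@[simp] lemma fB7 (X : L ℤ) : fB X 7 = -X 6 + X 8 - X 10 := rfl
@[simp] lemma fB8 (X : L ℤ) : fB X 8 = X 11 - X 8 := rfl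
@[simp] lemma fB9 (X : L ℤ) : fB X 9 = -X 6 := rfl
@[simp] lemma fB10 (X : L ℤ) : fB X 10 = X 7 - X 10 := rfl
@[simp] lemma fB11 (X : L ℤ) : fB X 11 = X 6 - X 8 := rfl

lemma fA_bch (X Y : L ℤ) : fA (bch X Y) = bch (fA X) (fA Y) := by
  apply L.ext
  refine forall12 ?_ ?_ ?_ ?_ ?_ ?_ ?_ ?_ ?_ ?_ ?_ ?_ <;>
  simp only [bch, add_ap, smul_ap, br0, br1, br2, br3, br4, br5, br6, br7, br8, br9, br10,
      br11, fA0, fA1, fA2, fA3, fA4, fA5, fA6, fA7, fA8, fA9, fA10, fA11] <;> ring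

lemma fB_fA (X : L ℤ) : fB (fA X) = X := by
  apply L.ext
  refine forall12 ?_ ?_ ?_ ?_ ?_ ?_ ?_ ?_ ?_ ?_ ?_ ?_ <;>
  simp only [fA0, fA1, fA2, fA3, fA4, fA5, fA6, fA7, fA8, fA9, fA10, fA11,
    fB0, fB1, fB2, fB3, fB4, fB5, fB6, fB7, fB8, fB9, fB10, fB11] <;> ring

lemma fA_fB (X : L ℤ) : fA (fB X) = X := by
  apply L.ext
  refine forall12 ?_ ?_ ?_ ?_ ?_ ?_ ?_ ?_ ?_ ?_ ?_ ?_ <;>
  simp only [fA0, fA1, fA2, fA3, fA4, fA5, fA6, fA7, fA8, fA9, fA10, fA11,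
    fB0, fB1, fB2, fB3, fB4, fB5, fB6, fB7, fB8, fB9, fB10, fB11] <;> ring

/-- the tame automorphism -/
def phiA : MulAut N where
  toFun X := toN (fA (toL X))
  invFun X := toN (fB (toL X))
  left_inv X := fB_fA (toL X)
  right_inv X := fA_fB (toL X)
  map_mul' X Y := fA_bch (toL X) (toL Y)

lemma und_phiA (X : L ℤ) : und phiA X = fA X := rfl

lemma und_pow_succ (φ : MulAut N) (n : ℕ) (X : L ℤ) :
    und (φ ^ (n + 1)) X = und φ (und (φ ^ n) X) := by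
  rw [pow_succ']
  rfl

/-- degree-one functional -/
noncomputable def l1 (X : L ℤ) : ℝ := X 0 + X 1 * r + X 2 * r ^ 2
/-- degree-two functional -/
noncomputable def l2 (X : L ℤ) : ℝ := X 3 + X 5 * r + X 4 * r ^ 2
/-- degree-three functional -/
noncomputable def l3 (X : L ℤ) : ℂ :=
  ((X 6 : ℂ) + X 8 * r + X 10 * r ^ 2) * s ^ 2 + ((X 7 : ℂ) + X 9 * r + X 11 * r ^ 2) * s

lemma l1_fA (X : L ℤ) : l1 (fA X) = r * l1 X := by
  have := r_cube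
  simp only [l1, fA0, fA1, fA2]
  push_cast
  linear_combination (-(X 2 : ℝ)) * this

lemma l2_fA (X : L ℤ) : r * l2 (fA X) = l2 X := by
  have := r_cube
  simp only [l2, fA3, fA4, fA5]
  push_cast
  linear_combination (X 3 : ℝ) * this

lemma rs_zero : 1 + (r : ℂ) * s ^ 2 + (r : ℂ) ^ 2 * s = 0 := by
  have h1 := s_sq
  have h3 : (r : ℂ) ^ 3 = r + 1 := by exact_mod_cast r_cube
  linear_combination (r : ℂ) * h1 - h3

lemma l3_fA (X : L ℤ) : s * l3 (fA X) = r * l3 X := by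
  have h1 := s_cube
  have h2 := rs_zero
  have h3 : (r : ℂ) ^ 3 = r + 1 := by exact_mod_cast r_cube
  simp only [l3, fA6, fA7, fA8, fA9, fA10, fA11]
  push_cast
  linear_combination (-((X 10 : ℂ) * s ^ 2 + X 11 * s)) * h3 -
    s * ((X 11 : ℂ) + (X 7 + X 11) * s + X 9 * s ^ 2) * h2 +
    s * (r * (((X 7 : ℂ) + X 11) + X 9 * s) + r ^ 2 * X 9) * h1

lemma l1_pow (n : ℕ) (X : L ℤ) : l1 (und (phiA ^ n) X) = r ^ n * l1 X := by
  induction n with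
  | zero => rw [pow_zero, pow_zero, one_mul]; rfl
  | succ n ih => rw [und_pow_succ, und_phiA, l1_fA, ih]; ring

lemma l2_pow (n : ℕ) (X : L ℤ) : r ^ n * l2 (und (phiA ^ n) X) = l2 X := by
  induction n with
  | zero => rw [pow_zero, pow_zero, one_mul]; rfl
  | succ n ih =>
    rw [und_pow_succ, und_phiA, ← ih, pow_succ, mul_assoc, l2_fA]

lemma l3_pow (n : ℕ) (X : L ℤ) : s ^ n * l3 (und (phiA ^ n) X) = r ^ n * l3 X := by
  induction n with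
  | zero => simp only [pow_zero, one_mul]; rfl
  | succ n ih =>
    rw [und_pow_succ, und_phiA, pow_succ, mul_assoc, l3_fA]
    linear_combination (r : ℂ) * ih

lemma one_lt_rpow {n : ℕ} (hn : 0 < n) : 1 < r ^ n := one_lt_pow₀ one_lt_r hn.ne'

lemma l1_zero {X : L ℤ} (h : l1 X = 0) : X 0 = 0 ∧ X 1 = 0 ∧ X 2 = 0 := lin_indep h

lemma l2_zero {X : L ℤ} (h : l2 X = 0) : X 3 = 0 ∧ X 4 = 0 ∧ X 5 = 0 := by
  obtain ⟨h1, h2, h3⟩ := lin_indep h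
  exact ⟨h1, h3, h2⟩

lemma l3_zero {X : L ℤ} (h : l3 X = 0) :
    X 6 = 0 ∧ X 7 = 0 ∧ X 8 = 0 ∧ X 9 = 0 ∧ X 10 = 0 ∧ X 11 = 0 := by
  have h1 : ((((X 6 : ℝ) + X 8 * r + X 10 * r ^ 2 : ℝ) : ℂ)) * s +
      (((X 7 : ℝ) + X 9 * r + X 11 * r ^ 2 : ℝ) : ℂ) = 0 := by
    apply mul_left_cancel₀ s_ne_zero
    rw [l3] at h
    push_cast
    linear_combination h
  generalize hA : ((X 6 : ℝ) + X 8 * r + X 10 * r ^ 2 : ℝ) = A at h1
  generalize hB : ((X 7 : ℝ) + X 9 * r + X 11 * r ^ 2 : ℝ) = B at h1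
  have h2 := congrArg Complex.im h1
  simp only [Complex.add_im, Complex.mul_im, Complex.ofReal_re, Complex.ofReal_im, zero_mul,
    add_zero, Complex.zero_im] at h2
  have hA0 : A = 0 := by
    rcases mul_eq_zero.1 h2 with h | h
    · exact h
    · exact absurd h s_im_pos.ne'
  have hB0 : B = 0 := by
    rw [hA0] at h1
    simpa using h1
  obtain ⟨a, b, c⟩ := lin_indep (hA.trans hA0)
  obtain ⟨a', b', c'⟩ := lin_indep (hB.trans hB0)
  exact ⟨a, a', b, b', c, c'⟩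

/-- the map `1 - φ ^ n` on the Lie ring -/
def Bn (n : ℕ) (X : L ℤ) : L ℤ := X - und (phiA ^ n) X

lemma Bn_low1 {n : ℕ} (hn : 0 < n) {X : L ℤ} (h : D2 (Bn n X)) : D2 X := by
  obtain ⟨h0, h1, h2⟩ := h
  rw [Bn, sub_ap, sub_eq_zero] at h0 h1 h2
  have e : l1 X = r ^ n * l1 X := by
    conv_lhs => rw [l1, h0, h1, h2]
    exact l1_pow n X
  have hr := one_lt_rpow hn
  have : l1 X = 0 := by
    have h3 : (r ^ n - 1) * l1 X = 0 := by linear_combination -e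
    rcases mul_eq_zero.1 h3 with h | h
    · linarith
    · exact h
  exact l1_zero this

/-- vanishing of the degree-two part -/
def Z2 (X : L ℤ) : Prop := X 3 = 0 ∧ X 4 = 0 ∧ X 5 = 0

/-- vanishing of the degree-three part -/
def Z3 (X : L ℤ) : Prop := X 6 = 0 ∧ X 7 = 0 ∧ X 8 = 0 ∧ X 9 = 0 ∧ X 10 = 0 ∧ X 11 = 0

lemma Bn_low2 {n : ℕ} (hn : 0 < n) {X : L ℤ} (h : Z2 (Bn n X)) : Z2 X := by
  obtain ⟨h0, h1, h2⟩ := h
  rw [Bn, sub_ap, sub_eq_zero] at h0 h1 h2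
  have e : r ^ n * l2 X = l2 X := by
    conv_lhs => rw [l2, h0, h1, h2]
    exact l2_pow n X
  have hr := one_lt_rpow hn
  have : l2 X = 0 := by
    have h3 : (r ^ n - 1) * l2 X = 0 := by linear_combination e
    rcases mul_eq_zero.1 h3 with h | h
    · linarith
    · exact h
  exact l2_zero this

lemma Bn_low3 {n : ℕ} (hn : 0 < n) {X : L ℤ} (h : Z3 (Bn n X)) : Z3 X := by
  obtain ⟨h0, h1, h2, h3, h4, h5⟩ := h
  rw [Bn, sub_ap, sub_eq_zero] at h0 h1 h2 h3 h4 h5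
  have e : s ^ n * l3 X = r ^ n * l3 X := by
    conv_lhs => rw [l3, h0, h1, h2, h3, h4, h5]
    exact l3_pow n X
  have : l3 X = 0 := by
    have h3 : (s ^ n - r ^ n) * l3 X = 0 := by linear_combination e
    rcases mul_eq_zero.1 h3 with h | h
    · exfalso
      have h4 : ‖s ^ n‖ = ‖(r : ℂ) ^ n‖ := by rw [sub_eq_zero.1 h]
      rw [norm_pow, norm_pow, Complex.norm_real, Real.norm_eq_abs,
        abs_of_pos (by linarith [one_lt_r])] at h4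
      have := pow_lt_pow_left₀ norm_s_lt (norm_nonneg s) hn.ne'
      linarith
    · exact h
  exact l3_zero this

/-- `Bn n` as an additive map -/
def BnHom (n : ℕ) : L ℤ →+ L ℤ := AddMonoidHom.mk' (Bn n) (by
  intro X Y
  rw [Bn, Bn, Bn, und_add]
  abel)

lemma Bn_inj {n : ℕ} (hn : 0 < n) : Function.Injective (BnHom n) := by
  rw [injective_iff_map_eq_zero]
  intro X hX
  have hX' : Bn n X = 0 := hX
  obtain ⟨a0, a1, a2⟩ := Bn_low1 hn (X := X) (by rw [hX']; exact ⟨rfl, rfl, rfl⟩)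
  obtain ⟨a3, a4, a5⟩ := Bn_low2 hn (X := X) (by rw [hX']; exact ⟨rfl, rfl, rfl⟩)
  obtain ⟨a6, a7, a8, a9, a10, a11⟩ := Bn_low3 hn (X := X)
    (by rw [hX']; exact ⟨rfl, rfl, rfl, rfl, rfl, rfl⟩)
  apply L.ext
  exact forall12 a0 a1 a2 a3 a4 a5 a6 a7 a8 a9 a10 a11

/-- a positive integer `D` with `D L ⊆ (1 - φ ^ n) L` -/
lemma exists_D {n : ℕ} (hn : 0 < n) : ∃ D : ℕ, 0 < D ∧ ∀ X : L ℤ, ∃ W, Bn n W = (D : ℤ) • X := by
  set f : L ℤ →ₗ[ℤ] L ℤ := (BnHom n).toIntLinearMap with hf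
  have hinj : Function.Injective f := Bn_inj hn
  have hfree : Module.Free ℤ (L ℤ) := inferInstanceAs (Module.Free ℤ (Fin 12 → ℤ))
  have hfinite : Module.Finite ℤ (L ℤ) := inferInstanceAs (Module.Finite ℤ (Fin 12 → ℤ))
  have hfin : Finite (L ℤ ⧸ LinearMap.range f) :=
    Submodule.finiteQuotientOfFreeOfRankEq _ (LinearMap.finrank_range_of_inj hinj)
  refine ⟨Nat.card (L ℤ ⧸ LinearMap.range f), Nat.card_pos, ?_⟩
  intro X
  have h : Nat.card (L ℤ ⧸ LinearMap.range f) • (Submodule.Quotient.mk X : L ℤ ⧸ LinearMap.range f)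
      = 0 := card_nsmul_eq_zero'
  rw [← Submodule.Quotient.mk_smul, Submodule.Quotient.mk_eq_zero] at h
  obtain ⟨W, hW⟩ := h
  refine ⟨W, ?_⟩
  have : Bn n W = Nat.card (L ℤ ⧸ LinearMap.range f) • X := hW
  rw [this, natCast_zsmul]

end Pool.Agent.H5.Tame
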