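import Pool.Agent.H5.Tame.TameAut

/-! Finiteness of the number of twisted conjugacy classes of the powers of `phiA`. -/

set_option autoImplicit false

namespace Pool.Agent.H5.Tame

lemma central_shuffle {H : Type} [Group H] {z s y a b c : H} (ha : ∀ x, a * x = x * a)
    (hb : ∀ x, b * x = x * b) (hc : ∀ x, c * x = x * c) :
    z * s * y⁻¹ * (a * b * c⁻¹) = (z * a) * (s * b) * (y * c)⁻¹ := by
  have h1 : y⁻¹ * a = a * y⁻¹ := (ha _).symm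
  have h2 : y⁻¹ * b = b * y⁻¹ := (hb _).symm
  have h3 : s * a = a * s := (ha _).symm
  have h4 : y⁻¹ * c⁻¹ = (y * c)⁻¹ := by rw [← hc y, mul_inv_rev]
  calc z * s * y⁻¹ * (a * b * c⁻¹) = z * s * (y⁻¹ * a) * b * c⁻¹ := by group
    _ = z * (s * a) * (y⁻¹ * b) * c⁻¹ := by rw [h1]; group
    _ = z * a * s * b * (y⁻¹ * c⁻¹) := by rw [h2, h3]; group
    _ = (z * a) * (s * b) * (y * c)⁻¹ := by rw [h4]; group

/-- lifting finiteness of twisted conjugacy along a central step -/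
lemma step {G : Type} [Group G] (ψ : G →* G) (Q P : Subgroup G) [P.Normal]
    (hψ : ∀ q ∈ Q, ψ q ∈ Q) (hc : ∀ q ∈ Q, ∀ g, q * g * q⁻¹ * g⁻¹ ∈ P)
    {S : Set G} (hS : S.Finite)
    (h1 : ∀ g, ∃ s ∈ S, ∃ z, ∃ q ∈ Q, g = z * s * (ψ z)⁻¹ * q)
    {R : Set G} (hR : R.Finite)
    (h2 : ∀ q ∈ Q, ∃ r ∈ R, r ∈ Q ∧ ∃ w ∈ Q, ∃ p ∈ P, q = w * r * (ψ w)⁻¹ * p) :
    ∃ S' : Set G, S'.Finite ∧ ∀ g, ∃ s ∈ S', ∃ z, ∃ p ∈ P, g = z * s * (ψ z)⁻¹ * p := by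
  refine ⟨Set.image2 (· * ·) S R, hS.image2 _ hR, ?_⟩
  intro g
  obtain ⟨s, hs, z, q, hq, rfl⟩ := h1 g
  obtain ⟨r, hr, hrQ, w, hw, p, hp, rfl⟩ := h2 q hq
  refine ⟨s * r, ⟨s, hs, r, hr, rfl⟩, z * w,
    ((z * w) * (s * r) * (ψ (z * w))⁻¹)⁻¹ * (z * s * (ψ z)⁻¹ * (w * r * (ψ w)⁻¹ * p)), ?_, ?_⟩
  · have hcent : ∀ q ∈ Q, ∀ x : G ⧸ P, (QuotientGroup.mk' P q) * x = x * (QuotientGroup.mk' P q) := by
      intro q hq x
      obtain ⟨g, rfl⟩ := QuotientGroup.mk'_surjective P x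
      have h := hc q hq g
      have h3 : QuotientGroup.mk' P (q * g * q⁻¹ * g⁻¹) = 1 := (QuotientGroup.eq_one_iff _).2 h
      rw [map_mul, map_mul, map_mul, map_inv, map_inv] at h3
      have h4 := mul_inv_eq_one.1 h3
      exact mul_inv_eq_iff_eq_mul.1 h4
    rw [← QuotientGroup.eq_one_iff]
    change QuotientGroup.mk' P _ = 1
    have hp1 : QuotientGroup.mk' P p = 1 := (QuotientGroup.eq_one_iff _).2 hp
    simp only [map_mul, map_inv, hp1, mul_one]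
    rw [central_shuffle (hcent w hw) (hcent r hrQ) (hcent (ψ w) (hψ w hw)), inv_mul_cancel]
  · rw [mul_inv_cancel_left]

instance : (F2).Normal := ⟨by
  intro q hq g
  have h := comm_mem_F2 q⁻¹ g
  have h2 := mul_mem hq h
  have e : q * (q⁻¹ * g * q⁻¹⁻¹ * g⁻¹) = g * q * g⁻¹ := by group
  rwa [e] at h2⟩

instance : (F3).Normal := ⟨by
  intro q hq g
  have hq2 : q⁻¹ ∈ F2 := inv_mem (mem_F2.2 (mem_F3.1 hq).1)
  have h := comm_mem_F3 hq2 g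
  have h2 := mul_mem hq h
  have e : q * (q⁻¹ * g * q⁻¹⁻¹ * g⁻¹) = g * q * g⁻¹ := by group
  rwa [e] at h2⟩

/-- the box of elements with coordinates in `[0, D)` -/
def box (D : ℕ) : Set N := {X | ∀ i, 0 ≤ toL X i ∧ toL X i < D}

lemma box_finite (D : ℕ) : (box D).Finite := by
  have h : (Set.pi Set.univ (fun _ : Fin 12 => Set.Ico (0 : ℤ) D)).Finite :=
    Set.Finite.pi' (fun _ => Set.finite_Ico _ _) |>.subset (by
      intro x hx i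
      exact hx i (Set.mem_univ i))
  refine h.subset ?_
  intro X hX i _
  exact hX i

/-- coordinatewise remainder -/
def rem (D : ℕ) (X : L ℤ) : L ℤ := fun i => X i % D
/-- coordinatewise quotient -/
def quo (D : ℕ) (X : L ℤ) : L ℤ := fun i => X i / D

lemma rem_ap (D : ℕ) (X : L ℤ) (i : Fin 12) : rem D X i = X i % D := rfl
lemma quo_ap (D : ℕ) (X : L ℤ) (i : Fin 12) : quo D X i = X i / D := rfl

lemma rem_add_quo (D : ℕ) (X : L ℤ) : rem D X + (D : ℤ) • quo D X = X := by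
  apply L.ext
  intro i
  rw [add_ap, zsmul_ap, rem_ap, quo_ap, smul_eq_mul]
  exact Int.emod_add_mul_ediv _ _

lemma rem_mem_box {D : ℕ} (hD : 0 < D) (X : L ℤ) : toN (rem D X) ∈ box D := by
  intro i
  have hD' : (0 : ℤ) < D := by exact_mod_cast hD
  exact ⟨Int.emod_nonneg _ hD'.ne', Int.emod_lt_of_pos _ hD'⟩

lemma decomp {n : ℕ} {D : ℕ} (h : ∀ X : L ℤ, ∃ W, Bn n W = (D : ℤ) • X) (X : L ℤ) :
    ∃ W, Bn n W = (D : ℤ) • quo D X ∧ X = rem D X + (W - und (phiA ^ n) W) := by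
  obtain ⟨W, hW⟩ := h (quo D X)
  refine ⟨W, hW, ?_⟩
  conv_lhs => rw [← rem_add_quo D X, ← hW]
  rfl

lemma toL_psi (n : ℕ) (w : N) : toL ((phiA ^ n) w) = und (phiA ^ n) (toL w) := rfl

lemma mul345 {X Y : N} (hX : X ∈ F2) (hY : Y ∈ F2) :
    toL (X * Y) 3 = toL X 3 + toL Y 3 ∧ toL (X * Y) 4 = toL X 4 + toL Y 4 ∧
    toL (X * Y) 5 = toL X 5 + toL Y 5 := by
  obtain ⟨h0, h1, h2⟩ := mem_F2.1 hX
  obtain ⟨k0, k1, k2⟩ := mem_F2.1 hY
  rw [mul3, mul4, mul5, h0, h1, h2]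
  refine ⟨?_, ?_, ?_⟩ <;> ring

theorem finite_classes {n : ℕ} (hn : 0 < n) : ∃ S : Set N, S.Finite ∧
    ∀ g, ∃ s ∈ S, ∃ z, g = z * s * ((phiA ^ n) z)⁻¹ := by
  obtain ⟨D, hD, hB⟩ := exists_D hn
  set ψ : N →* N := ((phiA ^ n : MulAut N) : N ≃* N).toMonoidHom with hψdef
  have hψ : ∀ x, ψ x = (phiA ^ n) x := fun x => rfl
  have hψ2 : ∀ q ∈ F2, ψ q ∈ F2 := fun q hq => map_F2 (phiA ^ n) hq
  have hψ3 : ∀ q ∈ F3, ψ q ∈ F3 := fun q hq => map_F3 (phiA ^ n) hq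
  -- first layer
  have A1 : ∀ g, ∃ s ∈ box D, ∃ z, ∃ q ∈ F2, g = z * s * (ψ z)⁻¹ * q := by
    intro g
    obtain ⟨W, hW, hX⟩ := decomp hB (toL g)
    refine ⟨toN (rem D (toL g)), rem_mem_box hD _, toN W,
      (toN W * toN (rem D (toL g)) * (ψ (toN W))⁻¹)⁻¹ * g, ?_, ?_⟩
    · have e : ∀ i, toL g i = rem D (toL g) i + (W i - und (phiA ^ n) W i) := fun i => by
        conv_lhs => rw [hX]
        rfl
      rw [mem_F2]
      simp only [mul0, mul1, mul2, toL_inv, neg_ap, hψ, toL_psi, toL_toN]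
      rw [e 0, e 1, e 2]
      refine ⟨?_, ?_, ?_⟩ <;> ring
    · rw [mul_inv_cancel_left]
  -- second layer
  have A2 : ∀ q ∈ F2, ∃ r ∈ box D, r ∈ F2 ∧ ∃ w ∈ F2, ∃ p ∈ F3, q = w * r * (ψ w)⁻¹ * p := by
    intro q hq
    obtain ⟨W, hW, hX⟩ := decomp hB (toL q)
    obtain ⟨h0, h1, h2⟩ := mem_F2.1 hq
    have hrem : toN (rem D (toL q)) ∈ F2 := by
      rw [mem_F2]
      simp only [toL_toN, rem_ap, h0, h1, h2]
      simp
    have hWF : toN W ∈ F2 := by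
      apply Bn_low1 hn
      rw [toL_toN, hW]
      refine ⟨?_, ?_, ?_⟩ <;> rw [zsmul_ap, quo_ap]
      · rw [h0]; simp
      · rw [h1]; simp
      · rw [h2]; simp
    have hψW : (ψ (toN W))⁻¹ ∈ F2 := inv_mem (hψ2 _ hWF)
    refine ⟨toN (rem D (toL q)), rem_mem_box hD _, hrem, toN W, hWF,
      (toN W * toN (rem D (toL q)) * (ψ (toN W))⁻¹)⁻¹ * q, ?_, ?_⟩
    · have e : ∀ i, toL q i = rem D (toL q) i + (W i - und (phiA ^ n) W i) := fun i => by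
        conv_lhs => rw [hX]
        rfl
      have hm : (toN W * toN (rem D (toL q)) * (ψ (toN W))⁻¹) ∈ F2 :=
        mul_mem (mul_mem hWF hrem) hψW
      have hm2 : (toN W * toN (rem D (toL q)) * (ψ (toN W))⁻¹)⁻¹ * q ∈ F2 :=
        mul_mem (inv_mem hm) hq
      rw [mem_F3]
      refine ⟨mem_F2.1 hm2, ?_⟩
      obtain ⟨a3, a4, a5⟩ := mul345 (inv_mem hm) hq
      obtain ⟨b3, b4, b5⟩ := mul345 (mul_mem hWF hrem) hψW
      obtain ⟨c3, c4, c5⟩ := mul345 hWF hrem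
      rw [a3, a4, a5, toL_inv, neg_ap, neg_ap, neg_ap, b3, b4, b5, c3, c4, c5, toL_inv, neg_ap,
        neg_ap, neg_ap, hψ, toL_psi, toL_toN, toL_toN, e 3, e 4, e 5]
      refine ⟨?_, ?_, ?_⟩ <;> ring
    · rw [mul_inv_cancel_left]
  -- third layer
  have A3 : ∀ q ∈ F3, ∃ r ∈ box D, r ∈ F3 ∧ ∃ w ∈ F3, ∃ p ∈ (⊥ : Subgroup N),
      q = w * r * (ψ w)⁻¹ * p := by
    intro q hq
    obtain ⟨W, hW, hX⟩ := decomp hB (toL q)
    obtain ⟨⟨h0, h1, h2⟩, ⟨h3, h4, h5⟩⟩ := mem_F3.1 hq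
    have hrem : toN (rem D (toL q)) ∈ F3 := by
      rw [mem_F3]
      simp only [toL_toN, rem_ap, h0, h1, h2, h3, h4, h5]
      simp
    have hWF : toN W ∈ F3 := by
      refine mem_F3.2 ⟨Bn_low1 hn ?_, Bn_low2 hn ?_⟩
      · rw [toL_toN, hW]
        refine ⟨?_, ?_, ?_⟩ <;> rw [zsmul_ap, quo_ap]
        · rw [h0]; simp
        · rw [h1]; simp
        · rw [h2]; simp
      · rw [toL_toN, hW]
        refine ⟨?_, ?_, ?_⟩ <;> rw [zsmul_ap, quo_ap]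
        · rw [h3]; simp
        · rw [h4]; simp
        · rw [h5]; simp
    have hψW : (ψ (toN W))⁻¹ ∈ F3 := inv_mem (hψ3 _ hWF)
    refine ⟨toN (rem D (toL q)), rem_mem_box hD _, hrem, toN W, hWF, 1, Subgroup.one_mem _, ?_⟩
    apply toL_inj
    rw [mul_one, bch_F3 _ _ hψW, bch_F3 _ _ hrem, toL_inv, hψ, toL_psi, toL_toN, toL_toN]
    conv_lhs => rw [hX]
    abel
  obtain ⟨S2, hS2, B2⟩ := step ψ F2 F3 hψ2 (fun q hq g => comm_mem_F3 hq g) (box_finite D) A1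
    (box_finite D) A2
  obtain ⟨S3, hS3, B3⟩ := step ψ F3 ⊥ hψ3 (fun q hq g => by
    rw [Subgroup.mem_bot]; exact comm_eq_one hq g) hS2 B2 (box_finite D) A3
  refine ⟨S3, hS3, ?_⟩
  intro g
  obtain ⟨s, hs, z, p, hp, h⟩ := B3 g
  rw [Subgroup.mem_bot] at hp
  refine ⟨s, hs, z, ?_⟩
  rw [h, hp, mul_one]
  rfl

end Pool.Agent.H5.Tame
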